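import Pool.Agent.Helper76.UF.Defs

/-!
# Linear spaces in cubic hypersurfaces: basic lemmas
-/

namespace Pool.Agent.Helper76.UF

section tri

variable {ι A B : Type*} [Fintype ι] [CommRing A] [CommRing B] (D : Ten ι A)

theorem tri_add_left (x x' y z : ι → A) : tri D (x + x') y z = tri D x y z + tri D x' y z := by
  simp only [tri, ← Finset.sum_add_distrib]
  refine Finset.sum_congr rfl fun i _ => Finset.sum_congr rfl fun j _ =>
    Finset.sum_congr rfl fun k _ => ?_
  simp only [Pi.add_apply]
  ring

theorem tri_add_mid (x y y' z : ι → A) : tri D x (y + y') z = tri D x y z + tri D x y' z := by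
  simp only [tri, ← Finset.sum_add_distrib]
  refine Finset.sum_congr rfl fun i _ => Finset.sum_congr rfl fun j _ =>
    Finset.sum_congr rfl fun k _ => ?_
  simp only [Pi.add_apply]
  ring

theorem tri_add_right (x y z z' : ι → A) : tri D x y (z + z') = tri D x y z + tri D x y z' := by
  simp only [tri, ← Finset.sum_add_distrib]
  refine Finset.sum_congr rfl fun i _ => Finset.sum_congr rfl fun j _ =>
    Finset.sum_congr rfl fun k _ => ?_
  simp only [Pi.add_apply]
  ring

theorem tri_smul_left (r : A) (x y z : ι → A) : tri D (r • x) y z = r * tri D x y z := by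
  simp only [tri, Finset.mul_sum]
  refine Finset.sum_congr rfl fun i _ => Finset.sum_congr rfl fun j _ =>
    Finset.sum_congr rfl fun k _ => ?_
  simp only [Pi.smul_apply, smul_eq_mul]
  ring

theorem tri_smul_mid (r : A) (x y z : ι → A) : tri D x (r • y) z = r * tri D x y z := by
  simp only [tri, Finset.mul_sum]
  refine Finset.sum_congr rfl fun i _ => Finset.sum_congr rfl fun j _ =>
    Finset.sum_congr rfl fun k _ => ?_
  simp only [Pi.smul_apply, smul_eq_mul]
  ring

theorem tri_smul_right (r : A) (x y z : ι → A) : tri D x y (r • z) = r * tri D x y z := by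
  simp only [tri, Finset.mul_sum]
  refine Finset.sum_congr rfl fun i _ => Finset.sum_congr rfl fun j _ =>
    Finset.sum_congr rfl fun k _ => ?_
  simp only [Pi.smul_apply, smul_eq_mul]
  ring

theorem tri_sub_left (x x' y z : ι → A) : tri D (x - x') y z = tri D x y z - tri D x' y z := by
  have h := tri_add_left D (x - x') x' y z
  rw [sub_add_cancel] at h
  rw [h]
  ring

theorem tri_sub_mid (x y y' z : ι → A) : tri D x (y - y') z = tri D x y z - tri D x y' z := by
  have h := tri_add_mid D x (y - y') y' z
  rw [sub_add_cancel] at h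
  rw [h]
  ring

theorem tri_sub_right (x y z z' : ι → A) : tri D x y (z - z') = tri D x y z - tri D x y z' := by
  have h := tri_add_right D x y (z - z') z'
  rw [sub_add_cancel] at h
  rw [h]
  ring

@[simp] theorem tri_zero_left (y z : ι → A) : tri D 0 y z = 0 := by simp [tri]

@[simp] theorem tri_zero_mid (x z : ι → A) : tri D x 0 z = 0 := by simp [tri]

@[simp] theorem tri_zero_right (x y : ι → A) : tri D x y 0 = 0 := by simp [tri]

theorem tri_sum_left {κ : Type*} (s : Finset κ) (f : κ → ι → A) (y z : ι → A) :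
    tri D (∑ i ∈ s, f i) y z = ∑ i ∈ s, tri D (f i) y z := by
  classical
  induction s using Finset.induction_on with
  | empty => simp
  | insert a s ha ih => rw [Finset.sum_insert ha, Finset.sum_insert ha, tri_add_left, ih]

theorem tri_sum_mid {κ : Type*} (s : Finset κ) (f : κ → ι → A) (y z : ι → A) :
    tri D y (∑ i ∈ s, f i) z = ∑ i ∈ s, tri D y (f i) z := by
  classical
  induction s using Finset.induction_on with
  | empty => simp
  | insert a s ha ih => rw [Finset.sum_insert ha, Finset.sum_insert ha, tri_add_mid, ih]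

theorem tri_sum_right {κ : Type*} (s : Finset κ) (f : κ → ι → A) (y z : ι → A) :
    tri D y z (∑ i ∈ s, f i) = ∑ i ∈ s, tri D y z (f i) := by
  classical
  induction s using Finset.induction_on with
  | empty => simp
  | insert a s ha ih => rw [Finset.sum_insert ha, Finset.sum_insert ha, tri_add_right, ih]

variable {D}

theorem IsSym.tri12 (h : IsSym D) (x y z : ι → A) : tri D x y z = tri D y x z := by
  rw [tri, Finset.sum_comm, tri]
  refine Finset.sum_congr rfl fun i _ => Finset.sum_congr rfl fun j _ =>
    Finset.sum_congr rfl fun k _ => ?_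
  rw [h.swap12]
  ring

theorem IsSym.tri23 (h : IsSym D) (x y z : ι → A) : tri D x y z = tri D x z y := by
  rw [tri, tri]
  refine Finset.sum_congr rfl fun i _ => ?_
  rw [Finset.sum_comm]
  refine Finset.sum_congr rfl fun j _ => Finset.sum_congr rfl fun k _ => ?_
  rw [h.swap23]
  ring

variable (D)

theorem tri_map (f : A →+* B) (x y z : ι → A) :
    f (tri D x y z) = tri (mapT f D) (fun i => f (x i)) (fun i => f (y i)) (fun i => f (z i)) := by
  simp only [tri, mapT, map_sum, map_mul]

theorem tri_compT {ι' : Type*} [Fintype ι'] (g : Matrix ι ι' A) (x y z : ι' → A) :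
    tri (compT D g) x y z = tri D (g.mulVec x) (g.mulVec y) (g.mulVec z) := by
  have h : ∀ x : ι' → A, g.mulVec x = ∑ i, x i • (fun l => g l i) := by
    intro x
    funext l
    simp only [Matrix.mulVec, dotProduct, Finset.sum_apply, Pi.smul_apply, smul_eq_mul]
    exact Finset.sum_congr rfl fun i _ => mul_comm _ _
  rw [h x, tri_sum_left, tri]
  refine Finset.sum_congr rfl fun i _ => ?_
  rw [tri_smul_left, h y, tri_sum_mid, Finset.mul_sum]
  refine Finset.sum_congr rfl fun j _ => ?_
  rw [tri_smul_mid, h z, tri_sum_right, Finset.mul_sum, Finset.mul_sum]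
  refine Finset.sum_congr rfl fun k _ => ?_
  rw [tri_smul_right, compT]
  ring

theorem IsSym.map {D : Ten ι A} (h : IsSym D) (f : A →+* B) : IsSym (mapT f D) :=
  ⟨fun i j k => by rw [mapT, mapT, h.swap12], fun i j k => by rw [mapT, mapT, h.swap23]⟩

theorem IsSym.comp {ι' : Type*} {D : Ten ι A} (h : IsSym D) (g : Matrix ι ι' A) :
    IsSym (compT D g) :=
  ⟨fun _ _ _ => h.tri12 _ _ _, fun _ _ _ => h.tri23 _ _ _⟩

theorem mapT_compT {ι' : Type*} (f : A →+* B) (g : Matrix ι ι' A) :
    mapT f (compT D g) = compT (mapT f D) (g.map f) := by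
  funext i j k
  rw [mapT, compT, tri_map]
  rfl

end tri

section step

variable {m : ℕ} {ω : Type*} [Fintype ω] {A B : Type*} [CommRing A] [CommRing B]
variable (D : Ten (Ix m ω) A) (U : Fin m → Ix m ω → A)

theorem qf_add (y y' : Ix m ω → A) : qf D U (y + y') = qf D U y + qf D U y' := by
  funext e
  exact tri_add_right D _ _ _ _

theorem qf_sub (y y' : Ix m ω → A) : qf D U (y - y') = qf D U y - qf D U y' := by
  funext e
  exact tri_sub_right D _ _ _ _

theorem qf_smul (c : A) (y : Ix m ω → A) : qf D U (c • y) = c • qf D U y := by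
  funext e
  exact tri_smul_right D _ _ _ _

theorem qf_sum {κ : Type*} (s : Finset κ) (f : κ → Ix m ω → A) :
    qf D U (∑ i ∈ s, f i) = ∑ i ∈ s, qf D U (f i) := by
  funext e
  rw [Finset.sum_apply]
  exact tri_sum_right D _ _ _ _

theorem qf_stepY (g : Pr m → Ix m ω → A) (t : Ix m ω → A) : qf D U (stepY D U g t) = 0 := by
  rw [stepY, qf_sub, qf_smul, qf_sum]
  have h1 : ∑ c, qf D U (((QM D U g).adjugate.mulVec (qf D U t)) c • g c) =
      (QM D U g).mulVec ((QM D U g).adjugate.mulVec (qf D U t)) := by
    funext e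
    rw [Finset.sum_apply, Matrix.mulVec, dotProduct]
    refine Finset.sum_congr rfl fun c _ => ?_
    rw [qf_smul, Pi.smul_apply, smul_eq_mul, mul_comm]
    rfl
  rw [h1, Matrix.mulVec_mulVec, Matrix.mul_adjugate, Matrix.smul_mulVec, Matrix.one_mulVec,
    sub_self]

theorem stepY_of_qf (g : Pr m → Ix m ω → A) (t : Ix m ω → A) (h : qf D U t = 0) :
    stepY D U g t = (QM D U g).det • t := by
  rw [stepY, h, Matrix.mulVec_zero]
  simp

theorem stepY_add (g : Pr m → Ix m ω → A) (t t' : Ix m ω → A) :
    stepY D U g (t + t') = stepY D U g t + stepY D U g t' := by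
  simp only [stepY, qf_add, Matrix.mulVec_add, Pi.add_apply, add_smul, smul_add,
    Finset.sum_add_distrib]
  abel

theorem stepY_smul (g : Pr m → Ix m ω → A) (c : A) (t : Ix m ω → A) :
    stepY D U g (c • t) = c • stepY D U g t := by
  rw [stepY, stepY, qf_smul, Matrix.mulVec_smul, smul_sub, Finset.smul_sum, smul_comm]
  congr 1
  refine Finset.sum_congr rfl fun i _ => ?_
  rw [Pi.smul_apply, smul_assoc]

variable {D} in
theorem IsSym.qf_zero (hD : IsSym D) {y : Ix m ω → A} (h : qf D U y = 0) (i j : Fin m) :
    tri D (U i) (U j) y = 0 := by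
  rcases le_total i j with h1 | h1
  · exact congrFun h ⟨(i, j), h1⟩
  · rw [hD.tri12]
    exact congrFun h ⟨(j, i), h1⟩

theorem qf_eq_zero {y : Ix m ω → A} (h : ∀ i j, tri D (U i) (U j) y = 0) : qf D U y = 0 := by
  funext e
  exact h _ _

theorem vec_add (y : Ix m ω → A) (x x' : Option (Fin m) → A) :
    vec U y (x + x') = vec U y x + vec U y x' := by
  simp only [vec, Pi.add_apply, add_smul, Finset.sum_add_distrib]
  abel

theorem vec_smul (y : Ix m ω → A) (c : A) (x : Option (Fin m) → A) :
    vec U y (c • x) = c • vec U y x := by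
  simp only [vec, Pi.smul_apply, smul_eq_mul, smul_add, Finset.smul_sum, smul_smul]

theorem vec_sub (y : Ix m ω → A) (x x' : Option (Fin m) → A) :
    vec U y (x - x') = vec U y x - vec U y x' := by
  have h := vec_add U y (x - x') x'
  rw [sub_add_cancel] at h
  rw [h, add_sub_cancel_right]

theorem wf_add (y : Ix m ω → A) (x x' : Option (Fin m) → A) :
    wf D U y (x + x') = wf D U y x + wf D U y x' := by
  simp only [wf, Pi.add_apply, add_mul, Finset.sum_add_distrib]
  ring

theorem wf_smul (y : Ix m ω → A) (c : A) (x : Option (Fin m) → A) :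
    wf D U y (c • x) = c * wf D U y x := by
  simp only [wf, Pi.smul_apply, smul_eq_mul, mul_add, Finset.mul_sum, mul_assoc]

theorem wf_sub (y : Ix m ω → A) (x x' : Option (Fin m) → A) :
    wf D U y (x - x') = wf D U y x - wf D U y x' := by
  have h := wf_add D U y (x - x') x'
  rw [sub_add_cancel] at h
  rw [h, add_sub_cancel_right]

theorem stepF_eq (π : Par m ω → A) (i : Fin m) : stepF D U π i =
    vec U (yP D U π) (wf D U (yP D U π) (kP π) • sP π i - wf D U (yP D U π) (sP π i) • kP π) := by
  rw [stepF, vec_sub, vec_smul, vec_smul]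

theorem wf_coord (y : Ix m ω → A) (k s : Option (Fin m) → A) :
    wf D U y (wf D U y k • s - wf D U y s • k) = 0 := by
  rw [wf_sub, wf_smul, wf_smul]
  ring

variable {D U} in
/-- The key identity. -/
theorem tri_vec (hD : IsSym D) (hU : VanOn D U) {y : Ix m ω → A} (hy : qf D U y = 0)
    (x x' x'' : Option (Fin m) → A) :
    3 * tri D (vec U y x) (vec U y x') (vec U y x'') =
      x none * x' none * wf D U y x'' + x' none * x'' none * wf D U y x +
        x none * x'' none * wf D U y x' := by
  have h0 : ∀ i j, tri D (U i) (U j) y = 0 := hD.qf_zero U hy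
  have h1 : ∀ i j, tri D (U i) y (U j) = 0 := fun i j => by rw [hD.tri23]; exact h0 i j
  have h2 : ∀ i j, tri D y (U i) (U j) = 0 := fun i j => by rw [hD.tri12]; exact h1 i j
  have h3 : ∀ i, tri D y (U i) y = tri D (U i) y y := fun i => hD.tri12 _ _ _
  have h4 : ∀ i, tri D y y (U i) = tri D (U i) y y := fun i => by rw [hD.tri23, h3]
  have hU' : ∀ i j k, tri D (U i) (U j) (U k) = 0 := hU
  have e : tri D (vec U y x) (vec U y x') (vec U y x'') =
      (∑ i, x (some i) * tri D (U i) y y) * (x' none * x'' none) +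
      (∑ i, x' (some i) * tri D (U i) y y) * (x none * x'' none) +
      (∑ i, x'' (some i) * tri D (U i) y y) * (x none * x' none) +
      x none * x' none * x'' none * tri D y y y := by
    simp only [vec, tri_add_left, tri_add_mid, tri_add_right, tri_sum_left, tri_sum_mid,
      tri_sum_right, tri_smul_left, tri_smul_mid, tri_smul_right, hU', h0, h1, h2, h3, h4,
      mul_zero, Finset.sum_const_zero, zero_add, add_zero, Finset.sum_mul]
    have e1 : ∀ (c d : A) (f : Fin m → A), ∑ i, f i * (c * (d * tri D (U i) y y)) =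
        ∑ i, f i * tri D (U i) y y * (d * c) := fun c d f =>
      Finset.sum_congr rfl fun i _ => by ring
    rw [e1]
    have e2 : x'' none * ∑ i, x' (some i) * (x none * tri D (U i) y y) =
        ∑ i, x' (some i) * tri D (U i) y y * (x none * x'' none) := by
      rw [Finset.mul_sum]
      exact Finset.sum_congr rfl fun i _ => by ring
    have e3 : x'' none * (x' none * ∑ i, x (some i) * tri D (U i) y y) =
        ∑ i, x (some i) * tri D (U i) y y * (x' none * x'' none) := by
      rw [Finset.mul_sum, Finset.mul_sum]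
      exact Finset.sum_congr rfl fun i _ => by ring
    rw [mul_add, mul_add, mul_add, e2, e3]
    ring
  rw [e]
  have e4 : ∀ x : Option (Fin m) → A, wf D U y x =
      3 * (∑ i, x (some i) * tri D (U i) y y) + x none * tri D y y y := by
    intro x
    rw [wf, Finset.mul_sum]
    congr 1
    exact Finset.sum_congr rfl fun i _ => by ring
  rw [e4, e4, e4]
  ring

variable {D U} in
/-- Vectors in the kernel of `w` span a subspace on which `D` vanishes. -/
theorem vanOn_vec (h3 : ∀ x : A, 3 * x = 0 → x = 0) (hD : IsSym D) (hU : VanOn D U)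
    {y : Ix m ω → A} (hy : qf D U y = 0) (C : Fin m → Option (Fin m) → A)
    (hC : ∀ i, wf D U y (C i) = 0) : VanOn D (fun i => vec U y (C i)) := by
  intro i j k
  apply h3
  rw [tri_vec hD hU hy, hC, hC, hC]
  ring

variable {D U} in
theorem vanOn_stepF (h3 : ∀ x : A, 3 * x = 0 → x = 0) (hD : IsSym D) (hU : VanOn D U)
    (π : Par m ω → A) : VanOn D (stepF D U π) := by
  have h := vanOn_vec h3 hD hU (qf_stepY D U (gP π) (tP π))
    (fun i => wf D U (yP D U π) (kP π) • sP π i - wf D U (yP D U π) (sP π i) • kP π)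
    (fun i => wf_coord D U _ _ _)
  have e : stepF D U π = fun i => vec U (stepY D U (gP π) (tP π))
      (wf D U (yP D U π) (kP π) • sP π i - wf D U (yP D U π) (sP π i) • kP π) :=
    funext fun i => stepF_eq D U π i
  rw [e]
  exact h

variable {D U} in
theorem vanOn_chain (h3 : ∀ x : A, 3 * x = 0 → x = 0) (hD : IsSym D) (hU : VanOn D U)
    (π : ℕ → Par m ω → A) (n : ℕ) : VanOn D (chain D U π n) := by
  induction n with
  | zero => exact hU
  | succ n ih => exact vanOn_stepF h3 hD ih _

/-! ### Shift -/

theorem chain_succ' (π : ℕ → Par m ω → A) (n : ℕ) :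
    chain D U π (n + 1) = chain D (stepF D U (π 0)) (fun k => π (k + 1)) n := by
  induction n with
  | zero => rfl
  | succ n ih =>
    rw [chain, ih]
    rfl

/-! ### Base change -/

theorem map_qf (f : A →+* B) (y : Ix m ω → A) (e : Pr m) :
    f (qf D U y e) = qf (mapT f D) (fun i l => f (U i l)) (fun l => f (y l)) e := tri_map D f _ _ _

theorem map_QM (f : A →+* B) (g : Pr m → Ix m ω → A) :
    (QM D U g).map f = QM (mapT f D) (fun i l => f (U i l)) (fun c l => f (g c l)) := by
  ext e c
  exact map_qf D U f _ _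

theorem map_stepY (f : A →+* B) (g : Pr m → Ix m ω → A) (t : Ix m ω → A) (l : Ix m ω) :
    f (stepY D U g t l) = stepY (mapT f D) (fun i l => f (U i l)) (fun c l => f (g c l))
      (fun l => f (t l)) l := by
  have h1 : f (QM D U g).det =
      (QM (mapT f D) (fun i l => f (U i l)) (fun c l => f (g c l))).det := by
    rw [← map_QM, RingHom.map_det]
    rfl
  have h2 : ∀ c, f (((QM D U g).adjugate.mulVec (qf D U t)) c) =
      ((QM (mapT f D) (fun i l => f (U i l)) (fun c l => f (g c l))).adjugate.mulVec
        (qf (mapT f D) (fun i l => f (U i l)) (fun l => f (t l)))) c := by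
    intro c
    have h3 : ((QM D U g).adjugate).map f =
        (QM (mapT f D) (fun i l => f (U i l)) (fun c l => f (g c l))).adjugate := by
      rw [← map_QM]
      exact RingHom.map_adjugate f _
    rw [← h3, Matrix.mulVec, Matrix.mulVec, dotProduct, dotProduct, map_sum]
    refine Finset.sum_congr rfl fun e _ => ?_
    rw [map_mul, map_qf]
    rfl
  simp only [stepY, Pi.sub_apply, Pi.smul_apply, smul_eq_mul, map_sub, map_mul, h1,
    Finset.sum_apply, map_sum, h2]

theorem map_vec (f : A →+* B) (y : Ix m ω → A) (x : Option (Fin m) → A) (l : Ix m ω) :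
    f (vec U y x l) = vec (fun i l => f (U i l)) (fun l => f (y l)) (fun o => f (x o)) l := by
  simp only [vec, Pi.add_apply, Finset.sum_apply, Pi.smul_apply, smul_eq_mul, map_add, map_sum,
    map_mul]

theorem map_wf (f : A →+* B) (y : Ix m ω → A) (x : Option (Fin m) → A) :
    f (wf D U y x) = wf (mapT f D) (fun i l => f (U i l)) (fun l => f (y l)) (fun o => f (x o)) := by
  simp only [wf, map_add, map_sum, map_mul, tri_map, map_ofNat]

theorem map_yP (f : A →+* B) (π : Par m ω → A) (l : Ix m ω) :
    f (yP D U π l) = yP (mapT f D) (fun i l => f (U i l)) (fun p => f (π p)) l :=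
  map_stepY D U f _ _ _

theorem map_stepF (f : A →+* B) (π : Par m ω → A) (i : Fin m) (l : Ix m ω) :
    f (stepF D U π i l) = stepF (mapT f D) (fun i l => f (U i l)) (fun p => f (π p)) i l := by
  have h1 : (fun l => f (yP D U π l)) =
      yP (mapT f D) (fun i l => f (U i l)) (fun p => f (π p)) := funext fun l => map_yP D U f π l
  simp only [stepF, Pi.sub_apply, Pi.smul_apply, smul_eq_mul, map_sub, map_mul, map_wf, map_vec,
    h1]
  rfl

theorem map_chain (f : A →+* B) (π : ℕ → Par m ω → A) (n : ℕ) (i : Fin m) (l : Ix m ω) :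
    f (chain D U π n i l) =
      chain (mapT f D) (fun i l => f (U i l)) (fun k p => f (π k p)) n i l := by
  induction n generalizing i l with
  | zero => rfl
  | succ n ih =>
    rw [chain, chain, map_stepF]
    congr 1
    funext i l
    exact ih i l

/-! ### Change of coordinates -/

variable {ω' : Type*} [Fintype ω'] (U' : Fin m → Ix m ω' → A)

/-- The action of a matrix on parameters. -/
def actP (g : Matrix (Ix m ω) (Ix m ω') A) (π : Par m ω' → A) : Par m ω → A
  | .inl (c, l) => g.mulVec (gP π c) l
  | .inr (.inl l) => g.mulVec (tP π) l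
  | .inr (.inr x) => π (.inr (.inr x))

theorem qf_compT (g : Matrix (Ix m ω) (Ix m ω') A) (y : Ix m ω' → A) :
    qf (compT D g) U' y = qf D (fun i => g.mulVec (U' i)) (g.mulVec y) := by
  funext e
  exact tri_compT D g _ _ _

theorem QM_compT (g : Matrix (Ix m ω) (Ix m ω') A) (v : Pr m → Ix m ω' → A) :
    QM (compT D g) U' v = QM D (fun i => g.mulVec (U' i)) (fun c => g.mulVec (v c)) := by
  ext e c
  exact tri_compT D g _ _ _

theorem mulVec_stepY (g : Matrix (Ix m ω) (Ix m ω') A) (v : Pr m → Ix m ω' → A)
    (t : Ix m ω' → A) : g.mulVec (stepY (compT D g) U' v t) =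
      stepY D (fun i => g.mulVec (U' i)) (fun c => g.mulVec (v c)) (g.mulVec t) := by
  rw [stepY, stepY, QM_compT, qf_compT, Matrix.mulVec_sub, Matrix.mulVec_smul, Matrix.mulVec_sum]
  simp only [Matrix.mulVec_smul]

theorem mulVec_vec (g : Matrix (Ix m ω) (Ix m ω') A) (y : Ix m ω' → A)
    (x : Option (Fin m) → A) :
    g.mulVec (vec U' y x) = vec (fun i => g.mulVec (U' i)) (g.mulVec y) x := by
  rw [vec, vec, Matrix.mulVec_add, Matrix.mulVec_sum]
  simp only [Matrix.mulVec_smul]

theorem wf_compT (g : Matrix (Ix m ω) (Ix m ω') A) (y : Ix m ω' → A)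
    (x : Option (Fin m) → A) :
    wf (compT D g) U' y x = wf D (fun i => g.mulVec (U' i)) (g.mulVec y) x := by
  simp only [wf, tri_compT]

theorem mulVec_yP (g : Matrix (Ix m ω) (Ix m ω') A) (π : Par m ω' → A) :
    g.mulVec (yP (compT D g) U' π) = yP D (fun i => g.mulVec (U' i)) (actP g π) :=
  mulVec_stepY D U' g _ _

theorem mulVec_stepF (g : Matrix (Ix m ω) (Ix m ω') A) (π : Par m ω' → A) (i : Fin m) :
    g.mulVec (stepF (compT D g) U' π i) = stepF D (fun i => g.mulVec (U' i)) (actP g π) i := by
  rw [stepF, stepF, Matrix.mulVec_sub, Matrix.mulVec_smul, Matrix.mulVec_smul, mulVec_vec,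
    mulVec_vec, wf_compT, wf_compT, mulVec_yP]
  rfl

theorem mulVec_chain (g : Matrix (Ix m ω) (Ix m ω') A) (π : ℕ → Par m ω' → A) (n : ℕ)
    (i : Fin m) : g.mulVec (chain (compT D g) U' π n i) =
      chain D (fun i => g.mulVec (U' i)) (fun k => actP g (π k)) n i := by
  induction n generalizing i with
  | zero => rfl
  | succ n ih =>
    rw [chain, chain, mulVec_stepF]
    congr 1
    funext i
    exact ih i

end step

end Pool.Agent.Helper76.UF
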