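import Mathlib

/-!
# Linear spaces in cubic hypersurfaces: definitions

The coordinates of `A^N` are indexed by `Fin m ⊕ ω`. The standard `m`-dimensional subspace is
spanned by the first `m` basis vectors. A cubic form is given by a symmetric trilinear form.
-/

namespace Pool.Agent.Helper76.UF

/-- Coefficients of a trilinear form. -/
abbrev Ten (ι A : Type*) := ι → ι → ι → A

/-- The set of coordinates. -/
abbrev Ix (m : ℕ) (ω : Type*) := Fin m ⊕ ω

section tri

variable {ι A B : Type*}

/-- The value of the trilinear form `D` at three vectors. -/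
def tri [Fintype ι] [CommRing A] (D : Ten ι A) (x y z : ι → A) : A :=
  ∑ i, ∑ j, ∑ k, D i j k * x i * y j * z k

/-- Base change of trilinear forms. -/
def mapT [CommRing A] [CommRing B] (f : A →+* B) (D : Ten ι A) : Ten ι B :=
  fun i j k => f (D i j k)

/-- Symmetric trilinear forms. -/
structure IsSym (D : Ten ι A) : Prop where
  swap12 : ∀ i j k, D i j k = D j i k
  swap23 : ∀ i j k, D i j k = D i k j

/-- The form `D(g x, g y, g z)`. -/
def compT {ι' : Type*} [Fintype ι] [CommRing A] (D : Ten ι A) (g : Matrix ι ι' A) : Ten ι' A :=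
  fun i j k => tri D (fun l => g l i) (fun l => g l j) (fun l => g l k)

end tri

section step

variable {m : ℕ} {ω : Type*} [Fintype ω] {A : Type*} [CommRing A]

/-- The basis of the standard subspace. -/
def std (m : ℕ) (ω A : Type*) [CommRing A] : Fin m → Ix m ω → A :=
  fun i l => Sum.elim (fun j => if j = i then 1 else 0) (fun _ => 0) l

/-- The form `D` vanishes on the span of the vectors `U i`. -/
def VanOn (D : Ten (Ix m ω) A) (U : Fin m → Ix m ω → A) : Prop :=
  ∀ i j k, tri D (U i) (U j) (U k) = 0

/-- Ordered pairs of indices: the coefficients of quadratic forms in `m` variables. -/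
abbrev Pr (m : ℕ) := {p : Fin m × Fin m // p.1 ≤ p.2}

/-- The quadratic form `D(u, u, y)` on the span of the vectors `U i`. -/
def qf (D : Ten (Ix m ω) A) (U : Fin m → Ix m ω → A) (y : Ix m ω → A) (e : Pr m) : A :=
  tri D (U e.1.1) (U e.1.2) y

/-- The matrix of the quadratic forms `D(u, u, g_c)`. -/
def QM (D : Ten (Ix m ω) A) (U : Fin m → Ix m ω → A) (g : Pr m → Ix m ω → A) :
    Matrix (Pr m) (Pr m) A :=
  Matrix.of fun e c => qf D U (g c) e

/-- A multiple of the projection of `t` to the space of the vectors `y` with `D(u, u, y) = 0`,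
along the span of the vectors `g_c`. -/
def stepY (D : Ten (Ix m ω) A) (U : Fin m → Ix m ω → A) (g : Pr m → Ix m ω → A)
    (t : Ix m ω → A) : Ix m ω → A :=
  (QM D U g).det • t - ∑ c, ((QM D U g).adjugate.mulVec (qf D U t)) c • g c

/-- The vector with coordinates `x` with respect to the vectors `U i` and `y`. -/
def vec (U : Fin m → Ix m ω → A) (y : Ix m ω → A) (x : Option (Fin m) → A) : Ix m ω → A :=
  ∑ i, x (some i) • U i + x none • y

/-- The linear form `w` with `D(v, v, v) = z ^ 2 w` on the span of the `U i` and `y`, when
`D(u, u, y) = 0`. -/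
def wf (D : Ten (Ix m ω) A) (U : Fin m → Ix m ω → A) (y : Ix m ω → A)
    (x : Option (Fin m) → A) : A :=
  ∑ i, x (some i) * (3 * tri D (U i) y y) + x none * tri D y y y

/-- Parameters of one step. -/
abbrev Par (m : ℕ) (ω : Type*) :=
  (Pr m × Ix m ω) ⊕ (Ix m ω ⊕ (Option (Fin m) ⊕ (Fin m × Option (Fin m))))

/-- The vectors `g_c`. -/
def gP {X : Type*} (π : Par m ω → X) : Pr m → Ix m ω → X := fun c l => π (.inl (c, l))

/-- The vector `t`. -/
def tP {X : Type*} (π : Par m ω → X) : Ix m ω → X := fun l => π (.inr (.inl l))

/-- The coordinates of a vector off the new subspace. -/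
def kP {X : Type*} (π : Par m ω → X) : Option (Fin m) → X := fun x => π (.inr (.inr (.inl x)))

/-- The coordinates of the vectors that are projected to the basis of the new subspace. -/
def sP {X : Type*} (π : Par m ω → X) : Fin m → Option (Fin m) → X :=
  fun i x => π (.inr (.inr (.inr (i, x))))

/-- The vector `y` of a step. -/
def yP (D : Ten (Ix m ω) A) (U : Fin m → Ix m ω → A) (π : Par m ω → A) : Ix m ω → A :=
  stepY D U (gP π) (tP π)

/-- One step: the residual subspace. -/
def stepF (D : Ten (Ix m ω) A) (U : Fin m → Ix m ω → A) (π : Par m ω → A) :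
    Fin m → Ix m ω → A := fun i =>
  wf D U (yP D U π) (kP π) • vec U (yP D U π) (sP π i) -
    wf D U (yP D U π) (sP π i) • vec U (yP D U π) (kP π)

/-- The chain of subspaces with given parameters. -/
def chain (D : Ten (Ix m ω) A) (U : Fin m → Ix m ω → A) (π : ℕ → Par m ω → A) :
    ℕ → Fin m → Ix m ω → A
  | 0 => U
  | n + 1 => stepF D (chain D U π n) (π n)

/-- The non-degeneracy conditions for a chain of length `n`. -/
structure Good (D : Ten (Ix m ω) A) (U : Fin m → Ix m ω → A) (π : ℕ → Par m ω → A) (n : ℕ) :
    Prop where
  det : ∀ i ≤ n, (QM D (chain D U π i) (gP (π i))).det ≠ 0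
  w : ∀ i < n, wf D (chain D U π i) (yP D (chain D U π i) (π i)) (kP (π i)) ≠ 0

/-- The tangent vectors at `U` of the variety of subspaces on which `D` vanishes. -/
def TS (D : Ten (Ix m ω) A) (U : Fin m → Ix m ω → A) : Submodule A (Fin m → Ix m ω → A) where
  carrier := {a | ∀ i j k, tri D (a i) (U j) (U k) + tri D (U i) (a j) (U k) +
    tri D (U i) (U j) (a k) = 0}
  add_mem' := by
    intro a b ha hb i j k
    have h : ∀ (x x' y z : Ix m ω → A), tri D (x + x') y z = tri D x y z + tri D x' y z := by
      intro x x' y z
      simp only [tri, ← Finset.sum_add_distrib]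
      refine Finset.sum_congr rfl fun i _ => Finset.sum_congr rfl fun j _ =>
        Finset.sum_congr rfl fun k _ => ?_
      simp only [Pi.add_apply]
      ring
    have h' : ∀ (x x' y z : Ix m ω → A), tri D y (x + x') z = tri D y x z + tri D y x' z := by
      intro x x' y z
      simp only [tri, ← Finset.sum_add_distrib]
      refine Finset.sum_congr rfl fun i _ => Finset.sum_congr rfl fun j _ =>
        Finset.sum_congr rfl fun k _ => ?_
      simp only [Pi.add_apply]
      ring
    have h'' : ∀ (x x' y z : Ix m ω → A), tri D y z (x + x') = tri D y z x + tri D y z x' := by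
      intro x x' y z
      simp only [tri, ← Finset.sum_add_distrib]
      refine Finset.sum_congr rfl fun i _ => Finset.sum_congr rfl fun j _ =>
        Finset.sum_congr rfl fun k _ => ?_
      simp only [Pi.add_apply]
      ring
    have h1 := ha i j k
    have h2 := hb i j k
    simp only [Pi.add_apply, h, h', h'']
    linear_combination h1 + h2
  zero_mem' := by
    intro i j k
    simp [tri]
  smul_mem' := by
    intro c a ha i j k
    have h1 := ha i j k
    have h : ∀ (x y z : Ix m ω → A), tri D (c • x) y z = c * tri D x y z := by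
      intro x y z
      simp only [tri, Finset.mul_sum]
      refine Finset.sum_congr rfl fun i _ => Finset.sum_congr rfl fun j _ =>
        Finset.sum_congr rfl fun k _ => ?_
      simp only [Pi.smul_apply, smul_eq_mul]
      ring
    have h' : ∀ (x y z : Ix m ω → A), tri D y (c • x) z = c * tri D y x z := by
      intro x y z
      simp only [tri, Finset.mul_sum]
      refine Finset.sum_congr rfl fun i _ => Finset.sum_congr rfl fun j _ =>
        Finset.sum_congr rfl fun k _ => ?_
      simp only [Pi.smul_apply, smul_eq_mul]
      ring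
    have h'' : ∀ (x y z : Ix m ω → A), tri D y z (c • x) = c * tri D y z x := by
      intro x y z
      simp only [tri, Finset.mul_sum]
      refine Finset.sum_congr rfl fun i _ => Finset.sum_congr rfl fun j _ =>
        Finset.sum_congr rfl fun k _ => ?_
      simp only [Pi.smul_apply, smul_eq_mul]
      ring
    simp only [Pi.smul_apply, h, h', h'']
    linear_combination c * h1

end step

section dual

/-- The point `x + ε v` over the dual numbers. -/
def du {σ A : Type*} [CommRing A] (x v : σ → A) : σ → DualNumber A :=
  fun s => TrivSqZeroExt.inl (x s) + TrivSqZeroExt.inr (v s)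

variable {m : ℕ} {ω : Type*} [Fintype ω] {A : Type*} [CommRing A]

/-- Constants in the dual numbers. -/
noncomputable def dT {ι : Type*} (D : Ten ι A) : Ten ι (DualNumber A) :=
  mapT (TrivSqZeroExt.inlHom A A) D

/-- The derivative of `stepF` in the direction `(a, v)`. -/
noncomputable def dstep (D : Ten (Ix m ω) A) (U : Fin m → Ix m ω → A) (π : Par m ω → A)
    (a : Fin m → Ix m ω → A) (v : Par m ω → A) : Fin m → Ix m ω → A := fun i l =>
  (stepF (dT D) (fun i => du (U i) (a i)) (du π v) i l).snd

/-- The derivative of `chain` in the direction `(a, v)`. -/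
noncomputable def dch (D : Ten (Ix m ω) A) (U : Fin m → Ix m ω → A) (π : ℕ → Par m ω → A)
    (a : Fin m → Ix m ω → A) (v : ℕ → Par m ω → A) (n : ℕ) : Fin m → Ix m ω → A := fun i l =>
  (chain (dT D) (fun i => du (U i) (a i)) (fun k => du (π k) (v k)) n i l).snd

end dual

end Pool.Agent.Helper76.UF
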