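import Pool.Agent.Helper76.UF.Dual

/-!
# Linear spaces in cubic hypersurfaces: predecessors of the standard subspace
-/

namespace Pool.Agent.Helper76.UF

section

variable {m : ℕ} {ω : Type*} [Fintype ω] {K : Type*}

/-- The coordinates of the basis vectors of the residual subspace, with respect to the basis
of the old subspace and `y`. -/
def cvec [CommRing K] (D : Ten (Ix m ω) K) (U : Fin m → Ix m ω → K) (π : Par m ω → K)
    (i : Fin m) : Option (Fin m) → K :=
  wf D U (yP D U π) (kP π) • sP π i - wf D U (yP D U π) (sP π i) • kP π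

/-- The tangent vector of a change of basis. -/
def frm [CommRing K] (U : Fin m → Ix m ω → K) (h : Fin m → Fin m → K) : Fin m → Ix m ω → K :=
  fun i => ∑ j, h i j • U j

/-- On the span of the standard subspace and `p` the cubic form is `w z ^ 2`, where `w` is the
coefficient of `p` and `z = l + s w`. -/
structure Fan [CommRing K] (D : Ten (Ix m ω) K) (p : Ix m ω → K) (l : Fin m → K) (s : K) :
    Prop where
  e1 : ∀ i j, 3 * tri D (std m ω K i) (std m ω K j) p = l i * l j
  e2 : ∀ i, 3 * tri D (std m ω K i) p p = 2 * s * l i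
  e3 : tri D p p p = s ^ 2
  s0 : s ≠ 0

/-- The basis of the subspace `z = 0`, a predecessor of the standard subspace. -/
def pre [Field K] (p : Ix m ω → K) (l : Fin m → K) (s : K) : Fin m → Ix m ω → K :=
  fun i => std m ω K i - (l i / s) • p

/-- The direction in which the standard subspace moves when the parameter of the step from the
predecessor moves in the direction `v`. -/
def BB [Field K] (D : Ten (Ix m ω) K) (p : Ix m ω → K) (l : Fin m → K) (s : K)
    (v : Ix m ω → K) : Fin m → Ix m ω → K := fun i =>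
  (l i / s) • v - ((6 * tri D (std m ω K i) p v - 3 * (l i / s) * tri D p p v) / s ^ 2) • p

/-- A predecessor of the standard subspace, with a direction. -/
structure PD [Field K] (D : Ten (Ix m ω) K) (p : Ix m ω → K) (l : Fin m → K) (s : K)
    (g : Pr m → Ix m ω → K) (v : Ix m ω → K) : Prop where
  fan : Fan D p l s
  supp : ∀ i, p (.inl i) = 0
  det : (QM D (pre p l s) g).det ≠ 0
  ker : qf D (pre p l s) v = 0

/-- The directions given by the predecessors. -/
def PS [Field K] (D : Ten (Ix m ω) K) : Set (Fin m → Ix m ω → K) :=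
  {b | ∃ p l s g v, PD D p l s g v ∧ b = BB D p l s v}

/-- The directions given by the predecessors span the tangent space, up to changes of basis. -/
def SP [Field K] (D : Ten (Ix m ω) K) : Prop :=
  ∀ a ∈ TS D (std m ω K), ∃ h : Fin m → Fin m → K,
    a - frm (std m ω K) h ∈ Submodule.span K (PS D)

/-- The vector with the given coordinates, zero on the standard subspace. -/
def xp [Zero K] (q : ω → K) : Ix m ω → K := Sum.elim (fun _ => 0) q

end

section seed

/-- The symmetric trilinear form with cubic form `a(x) b(x) c(x)`. -/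
noncomputable def sy {ι : Type*} (a b c : ι → ℝ) : Ten ι ℝ := fun i j k =>
  (a i * b j * c k + a i * b k * c j + a j * b i * c k + a j * b k * c i + a k * b i * c j +
    a k * b j * c i) / 6

variable (m : ℕ) {κ : Type*} [Fintype κ] [DecidableEq κ] (z1 z2 : κ)

/-- The coordinate function with index `i`. -/
def cf {ι : Type*} [DecidableEq ι] (i : ι) : ι → ℝ := Pi.single i 1

/-- The form `sum_{i, j} p_ij u_i u_j + sum_i u_i p_ii (p_ii + z1) + z2 z1 ^ 2`, where
`p_ij = p_ji`. -/
noncomputable def D0 : Ten (Ix m (Pr m ⊕ κ)) ℝ :=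
  (∑ e : Pr m, (if e.1.1 = e.1.2 then (1 : ℝ) else 2) •
    sy (cf (.inr (.inl e))) (cf (.inl e.1.1)) (cf (.inl e.1.2))) +
  (∑ i : Fin m, (sy (cf (.inl i)) (cf (.inr (.inl ⟨(i, i), le_rfl⟩)))
      (cf (.inr (.inl ⟨(i, i), le_rfl⟩))) +
    sy (cf (.inl i)) (cf (.inr (.inl ⟨(i, i), le_rfl⟩))) (cf (.inr (.inr z1))))) +
  sy (cf (.inr (.inr z2))) (cf (.inr (.inr z1))) (cf (.inr (.inr z1)))

variable {m}

/-- The vector with `p_ij = (l_i g_j + l_j g_i) / 2` and the given other coordinates. -/
noncomputable def pv (l g : Fin m → ℝ) (η : κ → ℝ) : Ix m (Pr m ⊕ κ) → ℝ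
  | .inl _ => 0
  | .inr (.inl e) => (l e.1.1 * g e.1.2 + l e.1.2 * g e.1.1) / 2
  | .inr (.inr a) => η a

/-- The equations for the points of the fan of `D0` of the form `pv l l ζ`. -/
structure FP (l : Fin m → ℝ) (s : ℝ) (ζ : κ → ℝ) : Prop where
  h1 : ∀ i, l i ^ 2 * (l i ^ 2 + ζ z1) = 2 * s * l i
  h2 : ζ z2 * ζ z1 ^ 2 = s ^ 2
  s0 : s ≠ 0
  h3 : ∀ i, s + l i ^ 3 ≠ 0

end seed

end Pool.Agent.Helper76.UF
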