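import Pool.Agent.Helper15.PotDense

/-!
# Definitions used in the statement

`(1 | a)` is the `m × (m + n)` matrix with left block the identity matrix and right block `a`; the
coordinates of `K ^ (m + n)` are indexed by `Fin m ⊕ Fin n`.
-/

namespace Pool.Agent.Helper76.UF

open MvPolynomial AlgebraicGeometry CategoryTheory Pool.Agent.Helper15

universe u

section fano

variable {m n : ℕ} {R : Type*} [CommRing R]

/-- The `i`-th row of the matrix `(1 | a)`. -/
def row (a : Fin m × Fin n → R) (i : Fin m) : Fin m ⊕ Fin n → R :=
  Sum.elim (fun j => if j = i then 1 else 0) (fun j => a (i, j))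

/-- The ideal of the chart of the Fano scheme of `m`-dimensional linear subspaces in the
hypersurface `F = 0`: it is generated by the coefficients of `F(y_1 r_1 + ... + y_m r_m)`, where
`r_i` are the rows of the matrix `(1 | X)`. -/
noncomputable def fanoIdeal (F : MvPolynomial (Fin m ⊕ Fin n) R) :
    Ideal (MvPolynomial (Fin m × Fin n) R) :=
  Ideal.span (Set.range fun e : Fin m →₀ ℕ => coeff e
    (aeval (fun j : Fin m ⊕ Fin n => ∑ i : Fin m, C (row X i j) * X i) F :
      MvPolynomial (Fin m) (MvPolynomial (Fin m × Fin n) R)))

/-- The exponents of the cubic monomials in `m + n` variables. -/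
abbrev CubicMon (m n : ℕ) := {e : Fin m ⊕ Fin n →₀ ℕ // e.degree = 3}

/-- The coefficients of the cubic form `F`. -/
noncomputable def coeffs (F : MvPolynomial (Fin m ⊕ Fin n) R) : CubicMon m n → R :=
  fun e => coeff e.1 F

/-- The row space of `(1 | a)` is a point of the Fano scheme: `F` vanishes on it. -/
def OnFano (F : MvPolynomial (Fin m ⊕ Fin n) R) (a : Fin m × Fin n → R) : Prop :=
  ∀ g ∈ fanoIdeal F, eval a g = 0

end fano

/-- The affine scheme defined by the ideal `P`. -/
noncomputable abbrev affineScheme {σ K : Type u} [Field K] (P : Ideal (MvPolynomial σ K)) :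
    Scheme.{u} :=
  Spec (CommRingCat.of (MvPolynomial σ K ⧸ P))

/-- Its structure morphism. -/
noncomputable abbrev affineStr {σ K : Type u} [Field K] (P : Ideal (MvPolynomial σ K)) :
    affineScheme P ⟶ Spec (CommRingCat.of K) :=
  Spec.map (CommRingCat.ofHom (algebraMap K (MvPolynomial σ K ⧸ P)))

/-- The Fano scheme of `m`-dimensional linear subspaces of the cubic hypersurface `F = 0` in
`m + n` variables has an irreducible component (in the chart of the row spaces of the matrices
`(1 | a)`) of dimension `m * n - (m + 2).choose 3` that is unirational over `K`; the `K`-points are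
dense in every irreducible `K`-scheme birational over `K` to it. -/
def HasUnirationalComponent {m n : ℕ} {K : Type} [Field K]
    (F : MvPolynomial (Fin m ⊕ Fin n) K) : Prop :=
  ∃ P ∈ (fanoIdeal F).minimalPrimes,
    Algebra.trdeg K (MvPolynomial (Fin m × Fin n) K ⧸ P) = (m * n - (m + 2).choose 3 : ℕ) ∧
    (∃ (N : ℕ) (φ : (MvPolynomial (Fin m × Fin n) K ⧸ P) →ₐ[K]
      FractionRing (MvPolynomial (Fin N) K)), Function.Injective φ) ∧
    ∀ (X : Scheme.{0}) (s : X ⟶ Spec (CommRingCat.of K)) [IrreducibleSpace X],
      BirationalOver K X (affineScheme P) s (affineStr P) → Dense (ratPts K K X s)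

end Pool.Agent.Helper76.UF
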