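import Pool.Agent.Helper76.UF.Defs2
import Pool.Agent.Helper76.UF.Stmt

/-!
# Linear spaces in cubic hypersurfaces: cubic forms, Fano schemes and universal families
-/

namespace Pool.Agent.Helper76.UF

open MvPolynomial

section fano

variable {m n : ℕ} {R : Type*} [CommRing R]

/-- The cubic form `D(x, x, x)`. -/
noncomputable def cub {ι : Type*} [Fintype ι] (D : Ten ι R) : MvPolynomial ι R :=
  ∑ i, ∑ j, ∑ k, C (D i j k) * X i * X j * X k

/-- The vectors with coordinates `0` on the standard subspace and the given coordinates. -/
def low : (Fin m × Fin n → R) →ₗ[R] (Fin m → Ix m (Fin n) → R) where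
  toFun τ i := Sum.elim (fun _ => 0) (fun j => τ (i, j))
  map_add' τ τ' := by
    funext i l
    rcases l with l | l <;> simp
  map_smul' c τ := by
    funext i l
    rcases l with l | l <;> simp

/-- The tangent space at `a` of the chart of the Fano scheme. -/
def Ta (D : Ten (Ix m (Fin n)) R) (a : Fin m × Fin n → R) : Submodule R (Fin m × Fin n → R) :=
  (TS D (row a)).comap low

end fano

section universal

variable {m : ℕ} {ω : Type*} {A : Type*} [CommRing A]

/-- A symmetric form that vanishes on the standard subspace. -/
def symvan (c : Ten (Ix m ω) A) : Ten (Ix m ω) A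
  | .inl _, .inl _, .inl _ => 0
  | i, j, k => c i j k + c i k j + c j i k + c j k i + c k i j + c k j i

/-- The variables of the universal family of chains of length `k`. -/
abbrev Uv (m n k : ℕ) := (Ix m (Fin n) × Ix m (Fin n) × Ix m (Fin n)) ⊕
  ((Ix m (Fin n) × Ix m (Fin n)) ⊕ (Fin (k + 1) × Par m (Fin n)))

variable {n k : ℕ}

/-- The matrix of a member of the universal family. -/
def uh (x : Uv m n k → A) : Matrix (Ix m (Fin n)) (Ix m (Fin n)) A :=
  Matrix.of fun i j => x (.inr (.inl (i, j)))

/-- The form of a member of the universal family. -/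
def uD (x : Uv m n k → A) : Ten (Ix m (Fin n)) A :=
  compT (symvan fun i j l => x (.inl (i, j, l))) (uh x)

/-- The first subspace of a member of the universal family. -/
def uU (x : Uv m n k → A) : Fin m → Ix m (Fin n) → A := fun i l => (uh x).adjugate l (.inl i)

/-- The parameters of a member of the universal family. -/
def uP (x : Uv m n k → A) : ℕ → Par m (Fin n) → A := fun j p =>
  if h : j < k + 1 then x (.inr (.inr (⟨j, h⟩, p))) else 0

/-- Non-degenerate chains of maximal rank whose end is in the chart. -/
structure Full {n : ℕ} {K : Type*} [Field K] (D : Ten (Ix m (Fin n)) K)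
    (U : Fin m → Ix m (Fin n) → K) (π : ℕ → Par m (Fin n) → K) (k : ℕ) : Prop where
  sym : IsSym D
  van : VanOn D U
  good : Good D U π k
  rank : Module.finrank K (Sn D U π k) + (m + 2).choose 3 = m * (m + n)
  chart : (Matrix.of fun i j => chain D U π k i (.inl j)).det ≠ 0

end universal

section jac

variable {m : ℕ} {ω : Type*} [Fintype ω] {A : Type*} [CommRing A]

open scoped Classical in
/-- The unit vectors in the space of parameters. -/
noncomputable def un {k : ℕ} (t : Fin k × Par m ω) : ℕ → Par m ω → A := fun j p =>
  if j = t.1 ∧ p = t.2 then 1 else 0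

/-- The Jacobian matrix of the chain. -/
noncomputable def jac (D : Ten (Ix m ω) A) (U : Fin m → Ix m ω → A) (π : ℕ → Par m ω → A)
    (k : ℕ) (t : Fin k × Par m ω) (q : Fin m × Ix m ω) : A := dch D U π 0 (un t) k q.1 q.2

end jac

end Pool.Agent.Helper76.UF
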