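import Pool.Agent.Helper76.UF.Defs3

/-!
# Linear spaces in cubic hypersurfaces: the symmetric trilinear form of a cubic form
-/

namespace Pool.Agent.Helper76.UF

open MvPolynomial

/-- The exponents of the cubic monomials. -/
abbrev E3 (ι : Type*) := {e : ι →₀ ℕ // e.degree = 3}

variable {ι : Type*}

/-- The exponent of the monomial `X i * X j * X k`. -/
noncomputable def e3 (i j k : ι) : E3 ι :=
  ⟨Finsupp.single i 1 + Finsupp.single j 1 + Finsupp.single k 1, by
    rw [map_add, map_add, Finsupp.degree_single, Finsupp.degree_single, Finsupp.degree_single]⟩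

/-- The symmetric trilinear form of the cubic form with coefficients `y`. -/
noncomputable def tenC {A : Type*} [CommRing A] [Algebra ℚ A] (y : E3 ι → A) : Ten ι A :=
  fun i j k => algebraMap ℚ A (((e3 i j k).1.prod fun _ n => (n.factorial : ℚ)) / 6) *
    y (e3 i j k)

end Pool.Agent.Helper76.UF
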