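import Pool.Agent.Helper76.UF.Defs4

/-!
# Linear spaces in cubic hypersurfaces: general pairs of a cubic and a linear subspace
-/

namespace Pool.Agent.Helper76.UF

variable {m n : ℕ} {A : Type*} [CommRing A]

/-- The matrix that maps the standard vectors to the rows of `(1 | a)` and is the identity on the
other coordinates. -/
def hm (a : Fin m × Fin n → A) : Matrix (Ix m (Fin n)) (Ix m (Fin n)) A :=
  Matrix.fromBlocks 1 0 (Matrix.of fun b j => a (j, b)) 1

/-- The variables of the universal family of pairs of a form and a subspace on which it
vanishes. -/
abbrev Wv (m n : ℕ) := (Ix m (Fin n) × Ix m (Fin n) × Ix m (Fin n)) ⊕ (Fin m × Fin n)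

/-- The form of a member of the universal family; it vanishes on the rows of `(1 | a)`, where `a` is
the second part of `x`. -/
def vD (x : Wv m n → A) : Ten (Ix m (Fin n)) A :=
  compT (symvan fun i j l => x (.inl (i, j, l))) (hm fun q => - x (.inr q))

end Pool.Agent.Helper76.UF
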