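import Pool.Agent.Helper76.UF.Basic

/-!
# Linear spaces in cubic hypersurfaces: derivatives by dual numbers
-/

namespace Pool.Agent.Helper76.UF

open TrivSqZeroExt

section ring

variable {A : Type*} [CommRing A]

theorem fst_du {σ : Type*} (x v : σ → A) (s : σ) : (du x v s).fst = x s := by
  simp [du]

theorem snd_du {σ : Type*} (x v : σ → A) (s : σ) : (du x v s).snd = v s := by
  simp [du]

theorem eq_du (x : DualNumber A) : x = inl x.fst + inr x.snd := by
  ext <;> simp

theorem dual_ext {x y : DualNumber A} (h1 : x.fst = y.fst) (h2 : x.snd = y.snd) : x = y :=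
  TrivSqZeroExt.ext h1 h2

/-- The dual numbers over a field of characteristic zero have no 3-torsion. -/
theorem dual_three (h3 : ∀ x : A, 3 * x = 0 → x = 0) (x : DualNumber A) (h : 3 * x = 0) :
    x = 0 := by
  have h1 : (3 : DualNumber A) = inl 3 := by
    have : (inlHom A A) 3 = 3 := map_ofNat _ 3
    exact this.symm
  rw [h1] at h
  refine dual_ext ?_ ?_
  · have := congrArg TrivSqZeroExt.fst h
    simpa using h3 _ (by simpa using this)
  · have := congrArg TrivSqZeroExt.snd h
    refine h3 _ ?_
    simpa [smul_eq_mul] using this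

theorem field_three {K : Type*} [Field K] [CharZero K] (x : K) (h : 3 * x = 0) : x = 0 :=
  (mul_eq_zero.1 h).resolve_left (by norm_num)

/-- Base change of dual numbers. -/
def dmap {A B : Type*} [CommRing A] [CommRing B] (f : A →+* B) : DualNumber A →+* DualNumber B where
  toFun x := inl (f x.fst) + inr (f x.snd)
  map_one' := by ext <;> simp
  map_mul' x y := by ext <;> simp [mul_comm]
  map_zero' := by ext <;> simp
  map_add' x y := by ext <;> simp

theorem fst_dmap {A B : Type*} [CommRing A] [CommRing B] (f : A →+* B) (x : DualNumber A) :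
    (dmap f x).fst = f x.fst := by simp [dmap]

theorem snd_dmap {A B : Type*} [CommRing A] [CommRing B] (f : A →+* B) (x : DualNumber A) :
    (dmap f x).snd = f x.snd := by simp [dmap]

theorem dmap_du {A B σ : Type*} [CommRing A] [CommRing B] (f : A →+* B) (x v : σ → A) (s : σ) :
    dmap f (du x v s) = du (fun s => f (x s)) (fun s => f (v s)) s := by
  ext
  · rw [fst_dmap, fst_du, fst_du]
  · rw [snd_dmap, snd_du, snd_du]

theorem isUnit_dual {K : Type*} [Field K] (x : DualNumber K) (h : x.fst ≠ 0) : IsUnit x := by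
  rw [TrivSqZeroExt.isUnit_iff_isUnit_fst]
  exact isUnit_iff_ne_zero.2 h

end ring

section chain

variable {m : ℕ} {ω : Type*} [Fintype ω] {A : Type*} [CommRing A]
variable (D : Ten (Ix m ω) A) (U : Fin m → Ix m ω → A)

theorem mapT_fst_dT {ι : Type*} (D : Ten ι A) : mapT (fstHom A A A : DualNumber A →+* A) (dT D) = D := by
  funext i j k
  simp [mapT, dT]

theorem IsSym.dT {ι : Type*} [Fintype ι] {D : Ten ι A} (h : IsSym D) : IsSym (dT D) := h.map _

theorem fst_chain_du (π : ℕ → Par m ω → A) (a : Fin m → Ix m ω → A) (v : ℕ → Par m ω → A)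
    (n : ℕ) (i : Fin m) (l : Ix m ω) :
    (chain (dT D) (fun i => du (U i) (a i)) (fun k => du (π k) (v k)) n i l).fst =
      chain D U π n i l := by
  have h := map_chain (dT D) (fun i => du (U i) (a i)) (fstHom A A A : DualNumber A →+* A)
    (fun k => du (π k) (v k)) n i l
  rw [mapT_fst_dT] at h
  have e1 : (fun i l => (fstHom A A A : DualNumber A →+* A) (du (U i) (a i) l)) = U := by
    funext i l
    exact fst_du _ _ _
  have e2 : (fun k p => (fstHom A A A : DualNumber A →+* A) (du (π k) (v k) p)) = π := by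
    funext k p
    exact fst_du _ _ _
  rw [e1, e2] at h
  exact h

theorem fst_stepF_du (π : Par m ω → A) (a : Fin m → Ix m ω → A) (v : Par m ω → A)
    (i : Fin m) (l : Ix m ω) :
    (stepF (dT D) (fun i => du (U i) (a i)) (du π v) i l).fst = stepF D U π i l :=
  fst_chain_du D U (fun _ => π) a (fun _ => v) 1 i l

/-- The chain over the dual numbers. -/
theorem chain_du (π : ℕ → Par m ω → A) (a : Fin m → Ix m ω → A) (v : ℕ → Par m ω → A)
    (n : ℕ) : chain (dT D) (fun i => du (U i) (a i)) (fun k => du (π k) (v k)) n =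
      fun i => du (chain D U π n i) (dch D U π a v n i) := by
  funext i l
  refine dual_ext ?_ ?_
  · rw [fst_chain_du, fst_du]
  · rw [snd_du]
    rfl

theorem stepF_du (π : Par m ω → A) (a : Fin m → Ix m ω → A) (v : Par m ω → A) :
    stepF (dT D) (fun i => du (U i) (a i)) (du π v) =
      fun i => du (stepF D U π i) (dstep D U π a v i) :=
  chain_du D U (fun _ => π) a (fun _ => v) 1

theorem dch_zero (π : ℕ → Par m ω → A) (a : Fin m → Ix m ω → A) (v : ℕ → Par m ω → A) :
    dch D U π a v 0 = a := by
  funext i l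
  simp [dch, chain, snd_du]

theorem dch_succ (π : ℕ → Par m ω → A) (a : Fin m → Ix m ω → A) (v : ℕ → Par m ω → A)
    (n : ℕ) : dch D U π a v (n + 1) =
      dstep D (chain D U π n) (π n) (dch D U π a v n) (v n) := by
  funext i l
  rw [dch, dstep, chain, chain_du]

theorem dch_succ' (π : ℕ → Par m ω → A) (a : Fin m → Ix m ω → A) (v : ℕ → Par m ω → A)
    (n : ℕ) : dch D U π a v (n + 1) =
      dch D (stepF D U (π 0)) (fun k => π (k + 1)) (dstep D U (π 0) a (v 0))
        (fun k => v (k + 1)) n := by
  funext i l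
  rw [dch, dch, chain_succ', stepF_du]

theorem map_dch {B : Type*} [CommRing B] (f : A →+* B) (π : ℕ → Par m ω → A)
    (a : Fin m → Ix m ω → A) (v : ℕ → Par m ω → A) (n : ℕ) (i : Fin m) (l : Ix m ω) :
    f (dch D U π a v n i l) = dch (mapT f D) (fun i l => f (U i l)) (fun k p => f (π k p))
      (fun i l => f (a i l)) (fun k p => f (v k p)) n i l := by
  have h := map_chain (dT D) (fun i => du (U i) (a i)) (dmap f) (fun k => du (π k) (v k)) n i l
  have e0 : mapT (dmap f) (dT D) = dT (mapT f D) := by
    funext i j k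
    ext <;> simp [mapT, dT, dmap]
  simp only [e0, dmap_du] at h
  rw [dch, dch, ← snd_dmap, h]

/-- The derivative of the chain commutes with linear maps. -/
theorem chain_two (f : A × A →ₗ[A] A) (π : ℕ → Par m ω → A) (a : Fin m → Ix m ω → A × A)
    (v : ℕ → Par m ω → A × A) (n : ℕ) (i : Fin m) (l : Ix m ω) :
    f (chain (mapT (inlHom A (A × A)) D) (fun i l => inl (U i l) + inr (a i l))
      (fun k p => inl (π k p) + inr (v k p)) n i l : TrivSqZeroExt A (A × A)).snd =
      dch D U π (fun i l => f (a i l)) (fun k p => f (v k p)) n i l := by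
  have h := map_chain (mapT (inlHom A (A × A)) D)
    (fun i l => (inl (U i l) + inr (a i l) : TrivSqZeroExt A (A × A)))
    (TrivSqZeroExt.map f : TrivSqZeroExt A (A × A) →+* DualNumber A)
    (fun k p => inl (π k p) + inr (v k p)) n i l
  have e0 : mapT (TrivSqZeroExt.map f : TrivSqZeroExt A (A × A) →+* DualNumber A)
      (mapT (inlHom A (A × A)) D) = dT D := by
    funext i j k
    simp [mapT, dT]
  have e1 : (fun i l => (TrivSqZeroExt.map f : TrivSqZeroExt A (A × A) →+* DualNumber A)
      (inl (U i l) + inr (a i l))) = fun i => du (U i) (fun l => f (a i l)) := by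
    funext i l
    simp [du]
  have e2 : (fun k p => (TrivSqZeroExt.map f : TrivSqZeroExt A (A × A) →+* DualNumber A)
      (inl (π k p) + inr (v k p))) = fun k => du (π k) (fun p => f (v k p)) := by
    funext k p
    simp [du]
  rw [e0, e1, e2] at h
  rw [dch, ← h]
  simp

theorem dch_add (π : ℕ → Par m ω → A) (a a' : Fin m → Ix m ω → A) (v v' : ℕ → Par m ω → A)
    (n : ℕ) : dch D U π (a + a') (v + v') n = dch D U π a v n + dch D U π a' v' n := by
  funext i l
  have h1 := chain_two D U (LinearMap.fst A A A) π (fun i l => (a i l, a' i l))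
    (fun k p => (v k p, v' k p)) n i l
  have h2 := chain_two D U (LinearMap.snd A A A) π (fun i l => (a i l, a' i l))
    (fun k p => (v k p, v' k p)) n i l
  have h3 := chain_two D U (LinearMap.fst A A A + LinearMap.snd A A A) π
    (fun i l => (a i l, a' i l)) (fun k p => (v k p, v' k p)) n i l
  simp only [LinearMap.add_apply, LinearMap.fst_apply, LinearMap.snd_apply] at h1 h2 h3
  rw [Pi.add_apply, Pi.add_apply, ← h1, ← h2, h3]
  rfl

theorem dch_smul (π : ℕ → Par m ω → A) (c : A) (a : Fin m → Ix m ω → A)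
    (v : ℕ → Par m ω → A) (n : ℕ) : dch D U π (c • a) (c • v) n = c • dch D U π a v n := by
  funext i l
  have h1 := chain_two D U (LinearMap.fst A A A) π (fun i l => (a i l, 0))
    (fun k p => (v k p, 0)) n i l
  have h3 := chain_two D U (c • LinearMap.fst A A A) π
    (fun i l => (a i l, 0)) (fun k p => (v k p, 0)) n i l
  simp only [LinearMap.smul_apply, LinearMap.fst_apply] at h1 h3
  rw [Pi.smul_apply, Pi.smul_apply, ← h1, h3]
  rfl

theorem dstep_add (π : Par m ω → A) (a a' : Fin m → Ix m ω → A) (v v' : Par m ω → A) :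
    dstep D U π (a + a') (v + v') = dstep D U π a v + dstep D U π a' v' :=
  dch_add D U (fun _ => π) a a' (fun _ => v) (fun _ => v') 1

theorem dstep_smul (π : Par m ω → A) (c : A) (a : Fin m → Ix m ω → A) (v : Par m ω → A) :
    dstep D U π (c • a) (c • v) = c • dstep D U π a v :=
  dch_smul D U (fun _ => π) c a (fun _ => v) 1

/-- The derivative of the chain as a linear map. -/
noncomputable def dchL (π : ℕ → Par m ω → A) (n : ℕ) :
    (Fin m → Ix m ω → A) × (ℕ → Par m ω → A) →ₗ[A] (Fin m → Ix m ω → A) where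
  toFun p := dch D U π p.1 p.2 n
  map_add' p q := dch_add D U π p.1 q.1 p.2 q.2 n
  map_smul' c p := dch_smul D U π c p.1 p.2 n

/-- The directions in which the end of the chain moves when the parameters vary. -/
noncomputable def Sn (π : ℕ → Par m ω → A) (n : ℕ) : Submodule A (Fin m → Ix m ω → A) :=
  LinearMap.range ((dchL D U π n).comp (LinearMap.inr A _ _))

theorem mem_Sn (π : ℕ → Par m ω → A) (n : ℕ) (b : Fin m → Ix m ω → A) :
    b ∈ Sn D U π n ↔ ∃ v, dch D U π 0 v n = b := by
  rw [Sn, LinearMap.mem_range]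
  rfl

variable {D U} in
/-- Tangent vectors and dual numbers. -/
theorem mem_TS_iff (hU : VanOn D U) (a : Fin m → Ix m ω → A) :
    a ∈ TS D U ↔ VanOn (dT D) (fun i => du (U i) (a i)) := by
  have h : ∀ x y z a b c : Ix m ω → A, tri (dT D) (du x a) (du y b) (du z c) =
      inl (tri D x y z) + inr (tri D a y z + tri D x b z + tri D x y c) := by
    intro x y z a b c
    have h1 : ∀ x : Ix m ω → A, (fun l => (inl (x l) : DualNumber A)) =
        fun l => inlHom A A (x l) := fun x => rfl
    have h2 : ∀ x y z : Ix m ω → A, tri (dT D) (fun l => inl (x l)) (fun l => inl (y l))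
        (fun l => inl (z l)) = inl (tri D x y z) := by
      intro x y z
      have := tri_map D (inlHom A A) x y z
      exact this.symm
    obtain ⟨E, hE1, hE2, hE3⟩ : ∃ E : DualNumber A, (∀ t : A, E * inl t = inr t) ∧
        (∀ t : A, E * inr t = 0) ∧ E * E = 0 := by
      refine ⟨inr 1, fun t => ?_, fun t => ?_, ?_⟩
      · rw [TrivSqZeroExt.inr_mul_inl]
        simp
      · exact TrivSqZeroExt.inr_mul_inr _ _ _
      · exact TrivSqZeroExt.inr_mul_inr _ _ _
    have h3 : ∀ x a : Ix m ω → A, du x a =
        (fun l => (inl (x l) : DualNumber A)) + E • fun l => inl (a l) := by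
      intro x a
      funext l
      rw [Pi.add_apply, Pi.smul_apply, smul_eq_mul, hE1]
      rfl
    rw [h3 x a, h3 y b, h3 z c]
    simp only [tri_add_left, tri_add_mid, tri_add_right, tri_smul_left, tri_smul_mid,
      tri_smul_right, h2, TrivSqZeroExt.inr_add]
    linear_combination hE1 (tri D a y z) + hE1 (tri D x b z) + hE1 (tri D x y c) +
      ((inl (tri D a b z) : DualNumber A) + inl (tri D a y c) + inl (tri D x b c) +
        E * inl (tri D a b c)) * hE3
  constructor
  · intro ha i j k
    rw [h, hU i j k]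
    have h1 : tri D (a i) (U j) (U k) + tri D (U i) (a j) (U k) + tri D (U i) (U j) (a k) = 0 :=
      ha i j k
    rw [h1]
    simp
  · intro ha i j k
    have h1 := ha i j k
    rw [h] at h1
    have := congrArg TrivSqZeroExt.snd h1
    simpa using this

variable {D U} in
theorem dstep_mem_TS {K : Type*} [Field K] [CharZero K] {D : Ten (Ix m ω) K}
    {U : Fin m → Ix m ω → K} (hD : IsSym D) (hU : VanOn D U) (π : Par m ω → K)
    {a : Fin m → Ix m ω → K} (ha : a ∈ TS D U) (v : Par m ω → K) :
    dstep D U π a v ∈ TS D (stepF D U π) := by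
  rw [mem_TS_iff (vanOn_stepF field_three hD hU π), ← stepF_du]
  exact vanOn_stepF (dual_three field_three) hD.dT ((mem_TS_iff hU a).1 ha) _

theorem dch_mem_TS {K : Type*} [Field K] [CharZero K] {D : Ten (Ix m ω) K}
    {U : Fin m → Ix m ω → K} (hD : IsSym D) (hU : VanOn D U) (π : ℕ → Par m ω → K)
    {a : Fin m → Ix m ω → K} (ha : a ∈ TS D U) (v : ℕ → Par m ω → K) (n : ℕ) :
    dch D U π a v n ∈ TS D (chain D U π n) := by
  rw [mem_TS_iff (vanOn_chain field_three hD hU π n), ← chain_du]
  exact vanOn_chain (dual_three field_three) hD.dT ((mem_TS_iff hU a).1 ha) _ n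

theorem Sn_le_TS {K : Type*} [Field K] [CharZero K] {D : Ten (Ix m ω) K}
    {U : Fin m → Ix m ω → K} (hD : IsSym D) (hU : VanOn D U) (π : ℕ → Par m ω → K) (n : ℕ) :
    Sn D U π n ≤ TS D (chain D U π n) := by
  intro b hb
  obtain ⟨v, rfl⟩ := (mem_Sn D U π n b).1 hb
  exact dch_mem_TS hD hU π (Submodule.zero_mem _) v n

end chain

end Pool.Agent.Helper76.UF
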