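import Pool.Agent.Helper76.UF.St.P2
import Pool.Agent.Helper76.UF.St.P6
import Pool.Agent.Helper76.UF.St.P7b
import Pool.Agent.Helper76.UF.St.P8
import Pool.Agent.Helper76.UF.St.P9d
import Pool.Agent.Helper76.UF.Sr.R1a
import Pool.Agent.Helper76.UF.Defs3

/-!
# Linear spaces in cubic hypersurfaces: chains of maximal rank over the real numbers
-/

namespace Pool.Agent.Helper76.UF

open Topology

section chain

variable {m : ℕ} {ω : Type*} [Fintype ω] {K : Type*} [Field K]
variable (D : Ten (Ix m ω) K) (U : Fin m → Ix m ω → K)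

theorem dch_congr (π : ℕ → Par m ω → K) (a : Fin m → Ix m ω → K) (v v' : ℕ → Par m ω → K)
    (n : ℕ) (h : ∀ j < n, v j = v' j) : dch D U π a v n = dch D U π a v' n := by
  induction n with
  | zero => rw [dch_zero, dch_zero]
  | succ n ih =>
    rw [dch_succ, dch_succ, ih (fun j hj => h j (Nat.lt_succ_of_lt hj)), h n (Nat.lt_succ_self n)]

theorem dstep_zero (π : Par m ω → K) : dstep D U π 0 0 = 0 := by
  have h := dstep_smul D U π 0 0 0
  rw [zero_smul, zero_smul, zero_smul] at h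
  exact h

variable {D U}

theorem Good.mono {π : ℕ → Par m ω → K} {n n' : ℕ} (hg : Good D U π n) (h : n' ≤ n) :
    Good D U π n' :=
  ⟨fun i hi => hg.det i (hi.trans h), fun i hi => hg.w i (lt_of_lt_of_le hi h)⟩

/-- The chain is surjective on tangent spaces. -/
theorem chain_surj [CharZero K] (hD : IsSym D) (hU : VanOn D U) (π : ℕ → Par m ω → K) (n : ℕ)
    (hg : Good D U π n) (b : Fin m → Ix m ω → K) (hb : b ∈ TS D (chain D U π n)) :
    ∃ a ∈ TS D U, ∃ v : ℕ → Par m ω → K, dch D U π a v n = b := by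
  induction n generalizing b with
  | zero => exact ⟨b, hb, 0, dch_zero D U π b 0⟩
  | succ n ih =>
    obtain ⟨a1, ha1, v1, h1⟩ := step_surj D hD (chain D U π n) (vanOn_chain field_three hD hU π n)
      (π n) (hg.det n (Nat.le_succ n)) (hg.w n (Nat.lt_succ_self n)) (gP (π (n + 1)))
      (hg.det (n + 1) le_rfl) b hb
    obtain ⟨a, ha, v, h⟩ := ih (hg.mono (Nat.le_succ n)) a1 ha1
    refine ⟨a, ha, fun j => if j = n then v1 else v j, ?_⟩
    rw [dch_succ, if_pos rfl, dch_congr D U π a (fun j => if j = n then v1 else v j) v n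
      (fun j hj => if_neg hj.ne), h, h1]

/-- Changes of basis of the first subspace do not move the end of the chain, up to changes of
parameters. -/
theorem dch_frm (hD : IsSym D) (π : ℕ → Par m ω → K) (n : ℕ) (hn : 0 < n)
    (hg : Good D U π n) (h : Fin m → Fin m → K) : dch D U π (frm U h) 0 n ∈ Sn D U π n := by
  obtain ⟨n, rfl⟩ : ∃ k, n = k + 1 := ⟨n - 1, by omega⟩
  obtain ⟨v0, hv0⟩ := frame_dir D hD U (π 0) (hg.det 0 (Nat.zero_le _))
    (hg.w 0 (Nat.succ_pos n)) h
  have h1 : dch D U π (frm U h) (fun j => if j = 0 then v0 else 0) (n + 1) = 0 := by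
    rw [dch_succ', if_pos rfl, hv0]
    have h2 : (fun k : ℕ => if k + 1 = 0 then v0 else (0 : Par m ω → K)) = 0 := by
      funext k
      rw [if_neg (Nat.succ_ne_zero k)]
      rfl
    rw [h2]
    have h3 := dch_smul D (stepF D U (π 0)) (fun k => π (k + 1)) 0 0 0 n
    rw [zero_smul, zero_smul, zero_smul] at h3
    exact h3
  have h2 := dch_add D U π (frm U h) 0 0 (fun j => if j = 0 then v0 else 0) (n + 1)
  rw [add_zero, zero_add, h1] at h2
  rw [mem_Sn]
  refine ⟨-(fun j => if j = 0 then v0 else 0), ?_⟩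
  have h3 := dch_smul D U π (-1) 0 (fun j => if j = 0 then v0 else 0) (n + 1)
  rw [smul_zero, neg_one_smul, neg_one_smul] at h3
  rw [h3]
  exact neg_eq_of_add_eq_zero_left h2.symm

end chain

section lin

variable {ι K : Type*} [Fintype ι] [CommRing K]

theorem tri_addT (D E : Ten ι K) (x y z : ι → K) :
    tri (D + E) x y z = tri D x y z + tri E x y z := by
  simp only [tri, Pi.add_apply, add_mul, Finset.sum_add_distrib]

theorem tri_smulT (c : K) (D : Ten ι K) (x y z : ι → K) :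
    tri (c • D) x y z = c * tri D x y z := by
  simp only [tri, Pi.smul_apply, smul_eq_mul, Finset.mul_sum, mul_assoc]

theorem IsSym.add {D E : Ten ι K} (hD : IsSym D) (hE : IsSym E) : IsSym (D + E) :=
  ⟨fun i j k => by rw [Pi.add_apply, Pi.add_apply, Pi.add_apply, Pi.add_apply, Pi.add_apply,
      Pi.add_apply, hD.swap12, hE.swap12],
    fun i j k => by rw [Pi.add_apply, Pi.add_apply, Pi.add_apply, Pi.add_apply, Pi.add_apply,
      hD.swap23, hE.swap23]⟩

theorem IsSym.smul {D : Ten ι K} (hD : IsSym D) (c : K) : IsSym (c • D) :=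
  ⟨fun i j k => by simp only [Pi.smul_apply]; rw [hD.swap12],
    fun i j k => by simp only [Pi.smul_apply]; rw [hD.swap23]⟩

theorem IsSym.subT {D E : Ten ι K} (hD : IsSym D) (hE : IsSym E) : IsSym (D - E) := by
  have h := hD.add (hE.smul (-1))
  rwa [neg_one_smul, ← sub_eq_add_neg] at h

end lin

section ext

variable {m : ℕ} {ω : Type*} [Fintype ω] {K : Type*} [Field K] [CharZero K]

/-- The matrix of the linear map `x - (l(x) / s) p`. -/
def gm (p : Ix m ω → K) (l : Fin m → K) (s : K) [DecidableEq ω] :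
    Matrix (Ix m ω) (Ix m ω) K :=
  Matrix.of fun i j => (if i = j then 1 else 0) - Sum.elim (fun a => l a / s) (fun _ => 0) j * p i

theorem gm_mulVec [DecidableEq ω] (p : Ix m ω → K) (l : Fin m → K) (s : K) (x : Ix m ω → K) :
    (gm p l s).mulVec x = x - (∑ a, l a / s * x (.inl a)) • p := by
  funext i
  simp only [Matrix.mulVec, dotProduct, gm, Matrix.of_apply, sub_mul, ite_mul, one_mul, zero_mul,
    Finset.sum_sub_distrib, Finset.sum_ite_eq, Finset.mem_univ, if_true, Pi.sub_apply,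
    Pi.smul_apply, smul_eq_mul, Fintype.sum_sum_type, Sum.elim_inl, Sum.elim_inr,
    Finset.sum_const_zero, add_zero, Finset.sum_mul]
  congr 1
  exact Finset.sum_congr rfl fun a _ => by ring

theorem gm_std [DecidableEq ω] (p : Ix m ω → K) (l : Fin m → K) (s : K) (i : Fin m) :
    (gm p l s).mulVec (std m ω K i) = pre p l s i := by
  rw [gm_mulVec, pre]
  congr 2
  rw [Finset.sum_eq_single i]
  · simp [std]
  · intro b _ hb
    simp [std, hb]
  · intro h
    exact absurd (Finset.mem_univ i) h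

theorem gm_mul [DecidableEq ω] (p : Ix m ω → K) (l : Fin m → K) (s : K)
    (hp : ∀ i, p (.inl i) = 0) : gm p l s * gm p (-l) s = 1 ∧ gm p (-l) s * gm p l s = 1 := by
  have h : ∀ l : Fin m → K, gm p l s * gm p (-l) s = 1 := by
    intro l
    apply Matrix.toLin'.injective
    rw [Matrix.toLin'_mul, Matrix.toLin'_one]
    ext x : 1
    apply LinearMap.ext
    intro y
    simp only [LinearMap.comp_apply, Matrix.toLin'_apply, LinearMap.id_apply, gm_mulVec,
      Pi.sub_apply, Pi.smul_apply, smul_eq_mul, hp, mul_zero, sub_zero, Pi.neg_apply]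
    funext i
    simp only [Pi.sub_apply, Pi.smul_apply, smul_eq_mul, neg_div, neg_mul, Finset.sum_neg_distrib]
    ring
  refine ⟨h l, ?_⟩
  have := h (-l)
  rwa [neg_neg] at this

/-- Adding a predecessor to a chain. -/
theorem extend (D : Ten (Ix m ω) K) (hD : IsSym D) (h0 : VanOn D (std m ω K))
    (p : Ix m ω → K) (l : Fin m → K) (s : K) (g : Pr m → Ix m ω → K) (hF : Fan D p l s)
    (hp : ∀ i, p (.inl i) = 0) (hdet : (QM D (pre p l s) g).det ≠ 0)
    (π : ℕ → Par m ω → K) (k : ℕ) (hg : Good D (std m ω K) π k) :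
    ∃ (D' : Ten (Ix m ω) K) (π' : ℕ → Par m ω → K), IsSym D' ∧ VanOn D' (std m ω K) ∧
      Good D' (std m ω K) π' (k + 1) ∧
      Module.finrank K (Sn D (std m ω K) π k) ≤
        Module.finrank K (Sn D' (std m ω K) π' (k + 1)) ∧
      ∀ v, qf D (pre p l s) v = 0 → dch D (std m ω K) π (BB D p l s v) 0 k ∉
        Sn D (std m ω K) π k → Module.finrank K (Sn D (std m ω K) π k) <
        Module.finrank K (Sn D' (std m ω K) π' (k + 1)) := by
  classical
  obtain ⟨π0, hπ0, hw, hstep, hdir⟩ := pred_step hD h0 hF g hdet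
  set π1 : ℕ → Par m ω → K := fun j => Nat.casesOn j π0 (fun j => π j) with hπ1
  have hch : ∀ i, chain D (pre p l s) π1 (i + 1) = chain D (std m ω K) π i := by
    intro i
    rw [chain_succ']
    have h1 : stepF D (pre p l s) (π1 0) = std m ω K := hstep
    rw [h1]
  have hgood : Good D (pre p l s) π1 (k + 1) := by
    constructor
    · intro i hi
      cases i with
      | zero =>
        change (QM D (pre p l s) (gP π0)).det ≠ 0
        rw [hπ0]
        exact hdet
      | succ i =>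
        rw [hch]
        exact hg.det i (by omega)
    · intro i hi
      cases i with
      | zero => exact hw
      | succ i =>
        rw [hch]
        exact hg.w i (by omega)
  have hdch : ∀ (v0 : Par m ω → K) (v : ℕ → Par m ω → K),
      dch D (std m ω K) π (dstep D (pre p l s) π0 0 v0) v k ∈ Sn D (pre p l s) π1 (k + 1) := by
    intro v0 v
    rw [mem_Sn]
    refine ⟨fun j => Nat.casesOn j v0 (fun j => v j), ?_⟩
    rw [dch_succ']
    have h1 : stepF D (pre p l s) (π1 0) = std m ω K := hstep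
    rw [h1]
    rfl
  have hle : Sn D (std m ω K) π k ≤ Sn D (pre p l s) π1 (k + 1) := by
    intro b hb
    obtain ⟨v, rfl⟩ := (mem_Sn _ _ _ _ _).1 hb
    have := hdch 0 v
    rwa [dstep_zero] at this
  obtain ⟨hG1, hG2⟩ := gm_mul p l s hp
  obtain ⟨π', hgood', hrank⟩ := transfer D (gm p l s) (gm p (-l) s) hG1 hG2 (pre p l s)
    (std m ω K) (gm_std p l s) π1 (k + 1) hgood
  refine ⟨compT D (gm p l s), π', hD.comp _, ?_, hgood', ?_, ?_⟩
  · intro i j a
    rw [tri_compT, gm_std, gm_std, gm_std]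
    exact vanOn_pre hD h0 hF i j a
  · rw [hrank]
    exact Submodule.finrank_mono hle
  · intro v hv hnot
    rw [hrank]
    apply Submodule.finrank_lt_finrank_of_lt
    refine lt_of_le_of_ne hle fun heq => hnot ?_
    obtain ⟨v0, hv0⟩ := hdir v hv
    have := hdch v0 0
    rw [hv0] at this
    rwa [heq]

/-- One more dimension. -/
theorem extend_one (D : Ten (Ix m ω) K) (hD : IsSym D) (h0 : VanOn D (std m ω K)) (hS : SP D)
    (π : ℕ → Par m ω → K) (k : ℕ) (hk : 0 < k) (hg : Good D (std m ω K) π k)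
    (hr : Sn D (std m ω K) π k ≠ TS D (chain D (std m ω K) π k)) :
    ∃ (D' : Ten (Ix m ω) K) (π' : ℕ → Par m ω → K), IsSym D' ∧ VanOn D' (std m ω K) ∧
      Good D' (std m ω K) π' (k + 1) ∧
      Module.finrank K (Sn D (std m ω K) π k) <
        Module.finrank K (Sn D' (std m ω K) π' (k + 1)) := by
  have hle := Sn_le_TS hD h0 π k
  obtain ⟨b, hb, hbn⟩ : ∃ b ∈ TS D (chain D (std m ω K) π k), b ∉ Sn D (std m ω K) π k := by
    by_contra hcon
    push Not at hcon
    exact hr (le_antisymm hle hcon)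
  obtain ⟨a, ha, v, hav⟩ := chain_surj hD h0 π k hg b hb
  obtain ⟨h, hh⟩ := hS a ha
  by_contra hcon
  have h1 : ∀ c ∈ PS D, dch D (std m ω K) π c 0 k ∈ Sn D (std m ω K) π k := by
    rintro c ⟨p, l, s, g, v, hPD, rfl⟩
    by_contra hnot
    obtain ⟨D', π', h1, h2, h3, h4, h5⟩ := extend D hD h0 p l s g hPD.fan hPD.supp hPD.det π k hg
    exact hcon ⟨D', π', h1, h2, h3, h5 v hPD.ker hnot⟩
  have h2 : ∀ c ∈ Submodule.span K (PS D), dch D (std m ω K) π c 0 k ∈ Sn D (std m ω K) π k := by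
    intro c hc
    induction hc using Submodule.span_induction with
    | mem c hc => exact h1 c hc
    | zero =>
      have h3 := dch_smul D (std m ω K) π 0 0 0 k
      rw [zero_smul, zero_smul, zero_smul] at h3
      rw [h3]
      exact Submodule.zero_mem _
    | add x y _ _ hx hy =>
      have h3 := dch_add D (std m ω K) π x y 0 0 k
      rw [add_zero] at h3
      rw [h3]
      exact Submodule.add_mem _ hx hy
    | smul c x _ hx =>
      have h3 := dch_smul D (std m ω K) π c x 0 k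
      rw [smul_zero] at h3
      rw [h3]
      exact Submodule.smul_mem _ _ hx
  apply hbn
  have h3 := dch_add D (std m ω K) π (a - frm (std m ω K) h) (frm (std m ω K) h) 0 0 k
  rw [sub_add_cancel, add_zero] at h3
  have h4 : dch D (std m ω K) π a 0 k ∈ Sn D (std m ω K) π k := by
    rw [h3]
    exact Submodule.add_mem _ (h2 _ hh) (dch_frm hD π k hk hg h)
  have h5 := dch_add D (std m ω K) π a 0 0 v k
  rw [add_zero, zero_add, hav] at h5
  rw [h5]
  exact Submodule.add_mem _ h4 ((mem_Sn _ _ _ _ _).2 ⟨v, rfl⟩)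

end ext

section real

variable {m : ℕ} {κ : Type*} [Fintype κ] [DecidableEq κ] {z1 z2 : κ}

theorem base_chain (hz : z1 ≠ z2) :
    ∃ (D : Ten (Ix m (Pr m ⊕ κ)) ℝ) (π : ℕ → Par m (Pr m ⊕ κ) → ℝ), IsSym D ∧
      VanOn D (std m _ ℝ) ∧ Good D (std m _ ℝ) π 1 := by
  have hFP : FP z1 z2 (0 : Fin m → ℝ) 1 (fun _ => 1) :=
    ⟨fun i => by simp, by norm_num, one_ne_zero, fun i => by simp⟩
  obtain ⟨g, hg⟩ := det_pre_D0 hFP
  obtain ⟨g1, hg1⟩ := det_D0 m z1 z2
  obtain ⟨D', π', h1, h2, h3, -, -⟩ := extend (D0 m z1 z2) (isSym_D0 m z1 z2) (vanOn_D0 m z1 z2)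
    (pv 0 0 fun _ => 1) 0 1 g (fan_D0 hFP) (fun i => rfl) hg
    (fun _ p => match p with
      | .inl (c, l) => g1 c l
      | .inr _ => 0) 0 ⟨fun i hi => by
        obtain rfl : i = 0 := by omega
        exact hg1, fun i hi => absurd hi (Nat.not_lt_zero i)⟩
  exact ⟨D', π', h1, h2, h3⟩

/-- Chains of any rank up to the dimension of the tangent space. -/
theorem rank_chain (hz : z1 ≠ z2) (r : ℕ)
    (hr : r + (m + 2).choose 3 ≤ m * (m + Fintype.card (Pr m ⊕ κ))) :
    ∃ (D : Ten (Ix m (Pr m ⊕ κ)) ℝ) (k : ℕ) (π : ℕ → Par m (Pr m ⊕ κ) → ℝ), 0 < k ∧ IsSym D ∧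
      VanOn D (std m _ ℝ) ∧ Good D (std m _ ℝ) π k ∧
      r ≤ Module.finrank ℝ (Sn D (std m _ ℝ) π k) := by
  induction r with
  | zero =>
    obtain ⟨D, π, h1, h2, h3⟩ := base_chain (m := m) hz
    exact ⟨D, 1, π, Nat.one_pos, h1, h2, h3, Nat.zero_le _⟩
  | succ r ih =>
    obtain ⟨D1, k, π, hk, hD1, hV1, hg1, hr1⟩ := ih (by omega)
    obtain ⟨g, hg⟩ := det_D0 m z1 z2
    have hsym := isSym_D0 m z1 z2
    have hvan := vanOn_D0 m z1 z2
    have hE : IsSym (D1 - D0 m z1 z2) := hD1.subT hsym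
    have hEv : VanOn (D1 - D0 m z1 z2) (std m _ ℝ) := by
      intro i j l
      have h1 := tri_addT (D1 - D0 m z1 z2) (D0 m z1 z2) (std m _ ℝ i) (std m _ ℝ j) (std m _ ℝ l)
      rw [sub_add_cancel, hV1 i j l, hvan i j l, add_zero] at h1
      exact h1.symm
    have hopen := SP_open (D0 m z1 z2) (D1 - D0 m z1 z2) hsym hE hvan hEv g hg (SP_D0 hz)
    have hfin := line_generic (D0 m z1 z2) D1 (std m _ ℝ) π k r hg1 hr1
    obtain ⟨t, ht1, ht2⟩ := (infinite_of_mem_nhds (0 : ℝ) hopen).exists_notMem_finite hfin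
    simp only [Set.mem_setOf_eq] at ht1
    rw [Set.mem_setOf_eq, not_not] at ht2
    obtain ⟨hgt, hrt⟩ := ht2
    set D := D0 m z1 z2 + t • (D1 - D0 m z1 z2) with hD
    have hDs : IsSym D := hsym.add (hE.smul t)
    have hDv : VanOn D (std m _ ℝ) := by
      intro i j l
      rw [hD, tri_addT, tri_smulT, hvan i j l, hEv i j l]
      ring
    by_cases heq : Sn D (std m _ ℝ) π k = TS D (chain D (std m _ ℝ) π k)
    · refine ⟨D, k, π, hk, hDs, hDv, hgt, ?_⟩
      rw [heq]
      have h1 := finrank_TS D hDs (chain D (std m _ ℝ) π k) (gP (π k)) (hgt.det k le_rfl)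
      omega
    · obtain ⟨D', π', h1, h2, h3, h4⟩ := extend_one D hDs hDv ht1 π k hk hgt heq
      exact ⟨D', k + 1, π', Nat.succ_pos k, h1, h2, h3, by omega⟩

end real

section reindex

open scoped Classical in
/-- The matrix of a change of indices. -/
noncomputable def pm {ι ι' : Type*} (e : ι' → ι) : Matrix ι ι' ℝ :=
  Matrix.of fun i j => if i = e j then 1 else 0

theorem pm_mulVec {ι ι' : Type*} [Fintype ι'] (e : ι' ≃ ι) (x : ι' → ℝ) :
    (pm e).mulVec x = x ∘ e.symm := by
  classical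
  funext i
  simp only [Matrix.mulVec, dotProduct, pm, Matrix.of_apply, ite_mul, one_mul, zero_mul,
    Function.comp_apply]
  rw [Finset.sum_eq_single (e.symm i)]
  · simp
  · intro b _ hb
    rw [if_neg]
    rintro rfl
    simp at hb
  · intro h
    exact absurd (Finset.mem_univ _) h

theorem transfer_explicit' {m : ℕ} {ω ω' : Type*} [Fintype ω] [Fintype ω'] {K : Type*} [Field K]
    (D : Ten (Ix m ω) K) (G : Matrix (Ix m ω) (Ix m ω') K)
    (G' : Matrix (Ix m ω') (Ix m ω) K) (h : ∀ x, G.mulVec (G'.mulVec x) = x)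
    (h' : ∀ x, G'.mulVec (G.mulVec x) = x)
    (U : Fin m → Ix m ω → K) (U' : Fin m → Ix m ω' → K) (hU : ∀ i, G.mulVec (U' i) = U i)
    (π : ℕ → Par m ω → K) (n : ℕ) (hg : Good D U π n) :
    (∀ i j, chain (compT D G) U' (fun k => actP G' (π k)) i j =
      G'.mulVec (chain D U π i j)) ∧
    Good (compT D G) U' (fun k => actP G' (π k)) n ∧
      Module.finrank K (Sn (compT D G) U' (fun k => actP G' (π k)) n) =
        Module.finrank K (Sn D U π n) := by
  classical
  refine transfer_explicit D G G' ?_ ?_ U U' hU π n hg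
  · apply Matrix.mulVec_injective
    funext x
    rw [← Matrix.mulVec_mulVec, h, Matrix.one_mulVec]
  · apply Matrix.mulVec_injective
    funext x
    rw [← Matrix.mulVec_mulVec, h', Matrix.one_mulVec]

theorem transfer' {m : ℕ} {ω ω' : Type*} [Fintype ω] [Fintype ω'] {K : Type*} [Field K]
    (D : Ten (Ix m ω) K) (G : Matrix (Ix m ω) (Ix m ω') K)
    (G' : Matrix (Ix m ω') (Ix m ω) K) (h : ∀ x, G.mulVec (G'.mulVec x) = x)
    (h' : ∀ x, G'.mulVec (G.mulVec x) = x)
    (U : Fin m → Ix m ω → K) (U' : Fin m → Ix m ω' → K) (hU : ∀ i, G.mulVec (U' i) = U i)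
    (π : ℕ → Par m ω → K) (n : ℕ) (hg : Good D U π n) :
    ∃ π' : ℕ → Par m ω' → K, Good (compT D G) U' π' n ∧
      Module.finrank K (Sn (compT D G) U' π' n) = Module.finrank K (Sn D U π n) := by
  classical
  refine transfer D G G' ?_ ?_ U U' hU π n hg
  · apply Matrix.mulVec_injective
    funext x
    rw [← Matrix.mulVec_mulVec, h, Matrix.one_mulVec]
  · apply Matrix.mulVec_injective
    funext x
    rw [← Matrix.mulVec_mulVec, h', Matrix.one_mulVec]

end reindex

/-- The theorem over the real numbers. -/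
theorem real_main (m n : ℕ) (hn : (m + 1).choose 2 + 2 ≤ n) :
    ∃ (D : Ten (Ix m (Fin n)) ℝ) (k : ℕ) (π : ℕ → Par m (Fin n) → ℝ), IsSym D ∧
      VanOn D (std m _ ℝ) ∧ Good D (std m _ ℝ) π k ∧
      Module.finrank ℝ (Sn D (std m _ ℝ) π k) + (m + 2).choose 3 = m * (m + n) := by
  classical
  obtain ⟨j, rfl⟩ : ∃ j, n = (m + 1).choose 2 + 2 + j := ⟨n - ((m + 1).choose 2 + 2), by omega⟩
  have hcard : Fintype.card (Pr m) = (m + 1).choose 2 := by
    rw [← Fintype.card_congr (Sym2.sortEquiv (α := Fin m)), Sym2.card, Fintype.card_fin]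
  have hc : Fintype.card (Pr m ⊕ Fin (2 + j)) = (m + 1).choose 2 + 2 + j := by
    rw [Fintype.card_sum, hcard, Fintype.card_fin, add_assoc]
  set e : Pr m ⊕ Fin (2 + j) ≃ Fin ((m + 1).choose 2 + 2 + j) :=
    Fintype.equivFinOfCardEq hc with he
  have hle : (m + 2).choose 3 ≤ m * (m + ((m + 1).choose 2 + 2 + j)) := by
    obtain ⟨g, hg⟩ := det_D0 m (κ := Fin (2 + j)) ⟨0, by omega⟩ ⟨1, by omega⟩
    have h := finrank_TS _ (isSym_D0 m (κ := Fin (2 + j)) ⟨0, by omega⟩ ⟨1, by omega⟩) _ g hg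
    rw [hc] at h
    omega
  obtain ⟨D, k, π, hk, hD, hV, hg, hr⟩ := rank_chain (m := m) (κ := Fin (2 + j))
    (z1 := ⟨0, by omega⟩) (z2 := ⟨1, by omega⟩) (by simp)
    (m * (m + ((m + 1).choose 2 + 2 + j)) - (m + 2).choose 3) (by rw [hc]; omega)
  have h1 := finrank_TS D hD (chain D (std m _ ℝ) π k) (gP (π k)) (hg.det k le_rfl)
  rw [hc] at h1
  have h2 := Submodule.finrank_mono (Sn_le_TS hD hV π k)
  set e' : Ix m (Fin ((m + 1).choose 2 + 2 + j)) ≃ Ix m (Pr m ⊕ Fin (2 + j)) :=
    Equiv.sumCongr (Equiv.refl _) e.symm with he'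
  have hstd : ∀ i, (pm e').mulVec (std m _ ℝ i) = std m _ ℝ i := by
    intro i
    rw [pm_mulVec]
    funext l
    rcases l with l | l <;> simp [std, he']
  obtain ⟨π', hg', hr'⟩ := transfer' D (pm e') (pm e'.symm)
    (fun x => by rw [pm_mulVec, pm_mulVec]; funext i; simp)
    (fun x => by rw [pm_mulVec, pm_mulVec]; funext i; simp)
    (std m _ ℝ) (std m _ ℝ) hstd π k hg
  refine ⟨compT D (pm e'), k, π', hD.comp _, ?_, hg', ?_⟩
  · intro a b c
    rw [tri_compT, hstd, hstd, hstd]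
    exact hV a b c
  · rw [hr']
    omega

/-- The matrix that adds `A` times the last coordinates to the first ones. -/
def um {m n : ℕ} (A : Matrix (Fin m) (Fin n) ℝ) : Matrix (Ix m (Fin n)) (Ix m (Fin n)) ℝ :=
  Matrix.fromBlocks 1 A 0 1

theorem um_mul {m n : ℕ} (A : Matrix (Fin m) (Fin n) ℝ) : um A * um (-A) = 1 := by
  rw [um, um, Matrix.fromBlocks_multiply]
  simp

/-- The theorem over the real numbers, with the end of the chain in the chart. -/
theorem real_full (m n : ℕ) (hn : (m + 1).choose 2 + 2 ≤ n) :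
    ∃ (D : Ten (Ix m (Fin n)) ℝ) (k : ℕ) (π : ℕ → Par m (Fin n) → ℝ),
      Full D (std m _ ℝ) π k := by
  classical
  obtain ⟨D, k, π, hD, hV, hg, hr⟩ := real_main m n hn
  have hli : LinearIndependent ℝ (chain D (std m _ ℝ) π k) := by
    rw [Fintype.linearIndependent_iff]
    intro c hc i
    exact congrFun (p2_li hD _ (gP (π k)) (hg.det k le_rfl) c hc) i
  obtain ⟨A, hA⟩ := exists_chart _ hli
  have hstd : ∀ i, (um (-A)).mulVec (std m _ ℝ i) = std m _ ℝ i := by
    intro i
    rw [um, Matrix.fromBlocks_mulVec]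
    funext l
    have h0 : (std m (Fin n) ℝ i) ∘ Sum.inr = 0 := rfl
    rw [h0, Matrix.mulVec_zero, Matrix.mulVec_zero, Matrix.zero_mulVec, Matrix.one_mulVec]
    rcases l with l | l <;> simp [std]
  have h1 : um (-A) * um A = 1 := by
    have := um_mul (-A)
    rwa [neg_neg] at this
  have h3 : ∀ x, (um (-A)).mulVec ((um A).mulVec x) = x := by
    intro x
    rw [Matrix.mulVec_mulVec, h1, Matrix.one_mulVec]
  have h4 : ∀ x, (um A).mulVec ((um (-A)).mulVec x) = x := by
    intro x
    rw [Matrix.mulVec_mulVec, um_mul, Matrix.one_mulVec]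
  obtain ⟨hc, hg', hr'⟩ := transfer_explicit' D (um (-A)) (um A) h3 h4 (std m _ ℝ)
    (std m _ ℝ) hstd π k hg
  refine ⟨compT D (um (-A)), k, fun j => actP (um A) (π j), hD.comp _, ?_, hg', ?_, ?_⟩
  · intro a b c
    rw [tri_compT, hstd, hstd, hstd]
    exact hV a b c
  · rw [hr']
    exact hr
  · convert hA using 3
    funext i j
    rw [hc, um, Matrix.fromBlocks_mulVec, Sum.elim_inl, Pi.add_apply, Matrix.one_mulVec]
    rfl

end Pool.Agent.Helper76.UF
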