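import Pool.Agent.Helper76.UF.Defs3

/-!
# Linear spaces in cubic hypersurfaces: symmetric forms vanishing on the standard subspace
-/

namespace Pool.Agent.Helper76.UF

section

variable {m : ℕ} {ω : Type*} [Fintype ω] {A : Type*} [CommRing A]

omit [Fintype ω] in
theorem sv_symvan_sym (c : Ten (Ix m ω) A) : IsSym (symvan c) := by
  constructor
  · intro i j k
    rcases i with i | i <;> rcases j with j | j <;> rcases k with k | k <;>
      simp only [symvan] <;> ring
  · intro i j k
    rcases i with i | i <;> rcases j with j | j <;> rcases k with k | k <;>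
      simp only [symvan] <;> ring

theorem sv_tri_std (D : Ten (Ix m ω) A) (i j k : Fin m) :
    tri D (std m ω A i) (std m ω A j) (std m ω A k) = D (.inl i) (.inl j) (.inl k) := by
  simp [tri, std, Fintype.sum_sum_type]

theorem sv_symvan_van (c : Ten (Ix m ω) A) : VanOn (symvan c) (std m ω A) := by
  intro i j k
  rw [sv_tri_std]
  rfl

theorem sv_symvan_eq (D : Ten (Ix m ω) ℝ) (hD : IsSym D) (h0 : VanOn D (std m _ ℝ)) (r : ℝ) :
    symvan (fun i j l => r * D i j l / 6) = fun i j l => r * D i j l := by
  have h1 : ∀ i j k, D i j k = D j i k := hD.swap12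
  have h2 : ∀ i j k, D i j k = D i k j := hD.swap23
  have key : ∀ i j k, r * D i j k / 6 + r * D i k j / 6 + r * D j i k / 6 + r * D j k i / 6 +
      r * D k i j / 6 + r * D k j i / 6 = r * D i j k := by
    intro i j k
    have e1 : D i k j = D i j k := h2 _ _ _
    have e2 : D j i k = D i j k := h1 _ _ _
    have e3 : D j k i = D i j k := by rw [h2, h1]
    have e4 : D k i j = D i j k := by rw [h1, h2]
    have e5 : D k j i = D i j k := by rw [h1, e3]
    rw [e1, e2, e3, e4, e5]
    ring
  funext i j k
  rcases i with i | i
  · rcases j with j | j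
    · rcases k with k | k
      · have h3 : D (.inl i) (.inl j) (.inl k) = 0 :=
          (sv_tri_std D i j k).symm.trans (h0 i j k)
        rw [h3, mul_zero]
        rfl
      · exact key _ _ _
    · exact key _ _ _
  · exact key _ _ _

end

end Pool.Agent.Helper76.UF
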