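import Pool.Agent.Helper76.UF.Local
import Pool.Agent.Helper76.UF.Real
import Pool.Agent.Helper76.UF.Sq.Q3
import Pool.Agent.Helper76.UF.Sq.Q4
import Pool.Agent.Helper76.UF.Symvan
import Pool.Agent.Helper76.UF.Sr.R2
import Pool.Agent.Helper76.UF.Sr.R3

/-!
# Unirational components of Fano schemes of general cubic hypersurfaces
-/

namespace Pool.Agent.Helper76.UF

open MvPolynomial AlgebraicGeometry CategoryTheory Pool.Agent.Helper15

universe u

theorem dense_of_points {σ K : Type u} [Field K] (P : Ideal (MvPolynomial σ K))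
    (h : ∀ f, f ∉ P → ∃ y : σ → K, eval y f ≠ 0 ∧ ∀ g ∈ P, eval y g = 0)
    (X : Scheme.{u}) (s : X ⟶ Spec (CommRingCat.of K)) [IrreducibleSpace X]
    (hX : BirationalOver K X (affineScheme P) s (affineStr P)) : Dense (ratPts K K X s) := by
  refine dense_ratPts_of_birational K K X _ s _ hX (dense_ratPts_spec K K _ fun g hg => ?_)
  obtain ⟨f, rfl⟩ := Ideal.Quotient.mk_surjective g
  rw [Ideal.Quotient.eq_zero_iff_mem]
  by_contra hf
  obtain ⟨y, hy1, hy2⟩ := h f hf
  have h1 := hg (Ideal.Quotient.liftₐ P (aeval y) (fun g hg => by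
    rw [aeval_eq_eval]
    exact hy2 g hg))
  apply hy1
  have h2 : (Ideal.Quotient.liftₐ P (aeval y) (fun g hg => by
    rw [aeval_eq_eval]
    exact hy2 g hg)) (Ideal.Quotient.mk P f) = aeval y f := rfl
  rw [h2, aeval_eq_eval] at h1
  exact h1

theorem hasUnirationalComponent {m n k : ℕ} {K : Type} [Field K] [CharZero K]
    {D : Ten (Ix m (Fin n)) K} {U : Fin m → Ix m (Fin n) → K} {π : ℕ → Par m (Fin n) → K}
    (hF : Full D U π k) : HasUnirationalComponent (cub D) := by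
  obtain ⟨P, hP, ⟨J, hJ, hJ2⟩, h3, h4⟩ := local_main hF
  refine ⟨P, hP, ?_, h3, fun X s _ hX => dense_of_points P h4 X s hX⟩
  haveI : P.IsPrime := hP.1.1
  have h5 := hJ2.cardinalMk_eq_trdeg
  rw [← h5, Cardinal.mk_coe_finset]
  congr 1
  omega

theorem isHomogeneous_cub {ι R : Type*} [Fintype ι] [CommRing R] (D : Ten ι R) :
    (cub D).IsHomogeneous 3 := by
  refine IsHomogeneous.sum _ _ _ fun i _ => IsHomogeneous.sum _ _ _ fun j _ =>
    IsHomogeneous.sum _ _ _ fun k _ => ?_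
  have h := (((isHomogeneous_C ι (D i j k)).mul (isHomogeneous_X R i)).mul
    (isHomogeneous_X R j)).mul (isHomogeneous_X R k)
  simpa using h

theorem eq_of_coeff {ι R : Type*} [CommRing R] {F G : MvPolynomial ι R}
    (hF : F.IsHomogeneous 3) (hG : G.IsHomogeneous 3) (h : ∀ e : E3 ι, coeff e.1 F = coeff e.1 G) :
    F = G := by
  ext e
  by_cases he : e.degree = 3
  · exact h ⟨e, he⟩
  · rw [hF.coeff_eq_zero he, hG.coeff_eq_zero he]

/-- General cubic forms that vanish on a given linear subspace. -/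
theorem part2 (m n : ℕ) (hn : (m + 1).choose 2 + 2 ≤ n) :
    ∃ Δ : MvPolynomial {e : E3 (Fin m ⊕ Fin n) // ∃ j, e.1 (.inr j) ≠ 0} ℚ, Δ ≠ 0 ∧
      ∀ (K : Type) [Field K] [CharZero K] (F : MvPolynomial (Fin m ⊕ Fin n) K),
        F.IsHomogeneous 3 → (∀ e : E3 (Fin m ⊕ Fin n), (∀ j, e.1 (.inr j) = 0) →
          coeff e.1 F = 0) →
        aeval (fun e : {e : E3 (Fin m ⊕ Fin n) // ∃ j, e.1 (.inr j) ≠ 0} => coeff e.1.1 F) Δ ≠ 0 →
        HasUnirationalComponent F := by
  classical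
  obtain ⟨D, k, π, hD⟩ := real_full m n hn
  obtain ⟨v, hv, hcert⟩ := cert2 m n k D π hD
  set E' := {e : E3 (Fin m ⊕ Fin n) // ∃ j, e.1 (.inr j) ≠ 0} with hE'
  -- the form with indeterminate coefficients
  set y : E3 (Fin m ⊕ Fin n) → MvPolynomial E' ℚ := fun e =>
    if h : ∃ j, e.1 (.inr j) ≠ 0 then X ⟨e, h⟩ else 0 with hy
  set T : Ix m (Fin n) × Ix m (Fin n) × Ix m (Fin n) → MvPolynomial E' ℚ :=
    fun i => tenC y i.1 i.2.1 i.2.2 with hT
  -- evaluation
  have key : ∀ (K : Type) [Field K] [CharZero K] (F : MvPolynomial (Fin m ⊕ Fin n) K),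
      (∀ e : E3 (Fin m ⊕ Fin n), (∀ j, e.1 (.inr j) = 0) → coeff e.1 F = 0) →
      aeval (fun e : E' => coeff e.1.1 F) (aeval T v) =
        aeval (fun i : Ix m (Fin n) × Ix m (Fin n) × Ix m (Fin n) =>
          tenC (fun e => coeff e.1 F) i.1 i.2.1 i.2.2) v := by
    intro K _ _ F hF
    have h1 : ((aeval (fun e : E' => coeff e.1.1 F)).comp (aeval T) :
        MvPolynomial (Ix m (Fin n) × Ix m (Fin n) × Ix m (Fin n)) ℚ →ₐ[ℚ] K) =
        aeval (fun i => tenC (fun e => coeff e.1 F) i.1 i.2.1 i.2.2) := by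
      apply MvPolynomial.algHom_ext
      intro i
      rw [AlgHom.comp_apply, aeval_X, aeval_X, hT, map_tenC]
      congr 1
      funext e
      rw [hy]
      by_cases h : ∃ j, e.1 (.inr j) ≠ 0
      · simp only [dif_pos h, aeval_X]
      · simp only [dif_neg h, map_zero]
        push Not at h
        exact (hF e h).symm
    rw [← h1]
    rfl
  refine ⟨aeval T v, ?_, fun K _ _ F hF h0 hne => ?_⟩
  · intro h
    apply hv
    have h1 := key ℝ (cub D) (fun e he => coeff_cub_of_vanOn D hD.van e he)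
    rw [h, map_zero, tenC_cub D hD.sym] at h1
    exact h1.symm
  · rw [key K F h0] at hne
    obtain ⟨π', hπ'⟩ := hcert K (tenC fun e => coeff e.1 F) (isSym_tenC _)
      (vanOn_tenC _ h0) hne
    have h1 := hasUnirationalComponent hπ'
    rwa [cub_tenC F hF] at h1

end Pool.Agent.Helper76.UF
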