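import Pool.Agent.Helper76.UF.Sq.Q1
import Pool.Agent.Helper76.UF.Sq.Q2
import Pool.Agent.Helper76.UF.Sq.Q5
import Pool.Agent.Helper76.UF.Sq.Q6
import Pool.Agent.Helper76.UF.Sq.Q7
import Pool.Agent.Helper76.UF.Sq.Q9
import Pool.Agent.Helper15.PotDense

/-!
# Linear spaces in cubic hypersurfaces: a component of the Fano scheme
-/

namespace Pool.Agent.Helper76.UF

open MvPolynomial AlgebraicGeometry CategoryTheory Pool.Agent.Helper15

universe u

/-- A subspace of `M ^ σ` is mapped isomorphically to the space of some of the coordinates. -/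
theorem exists_coords {M σ : Type*} [Field M] [Finite σ] (T : Submodule M (σ → M)) :
    ∃ J : Finset σ, J.card = Module.finrank M T ∧ (∀ τ ∈ T, (∀ q ∈ J, τ q = 0) → τ = 0) ∧
      ∀ c : J → M, (∀ τ ∈ T, ∑ q, c q * τ q = 0) → c = 0 := by
  classical
  haveI := Fintype.ofFinite σ
  set ev : σ → Module.Dual M T := fun q => (LinearMap.proj q).comp T.subtype with hev
  obtain ⟨κ, a, ha, hspan, hli⟩ := exists_linearIndependent' M ev
  haveI : Finite κ := Finite.of_injective a ha
  haveI := Fintype.ofFinite κ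
  have htop : Submodule.span M (Set.range ev) = ⊤ := by
    apply Submodule.eq_top_of_finrank_eq
    have h1 := Subspace.finrank_add_finrank_dualCoannihilator_eq (Submodule.span M (Set.range ev))
    have h2 : (Submodule.span M (Set.range ev)).dualCoannihilator = ⊥ := by
      rw [eq_bot_iff]
      intro τ hτ
      rw [Submodule.mem_bot]
      rw [Submodule.mem_dualCoannihilator] at hτ
      ext q
      exact hτ (ev q) (Submodule.subset_span ⟨q, rfl⟩)
    rw [h2, finrank_bot, add_zero] at h1
    rw [h1, Subspace.dual_finrank_eq]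
  refine ⟨Finset.univ.image a, ?_, ?_, ?_⟩
  · rw [Finset.card_image_of_injective _ ha, Finset.card_univ, ← Subspace.dual_finrank_eq,
      ← finrank_top M (Module.Dual M T), ← htop, ← hspan, finrank_span_eq_card hli]
  · intro τ hτ h0
    have h1 : ∀ φ : Module.Dual M T, φ ⟨τ, hτ⟩ = 0 := by
      intro φ
      have h2 : φ ∈ Submodule.span M (Set.range (ev ∘ a)) := by
        rw [hspan, htop]
        exact Submodule.mem_top
      induction h2 using Submodule.span_induction with
      | mem x hx =>
        obtain ⟨k, rfl⟩ := hx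
        exact h0 _ (Finset.mem_image_of_mem a (Finset.mem_univ k))
      | zero => rfl
      | add x y _ _ hx hy => rw [LinearMap.add_apply, hx, hy, add_zero]
      | smul c x _ hx => rw [LinearMap.smul_apply, hx, smul_zero]
    funext q
    exact h1 (ev q)
  · intro c hc
    set e : κ ≃ (Finset.univ.image a : Finset σ) := Equiv.ofBijective
      (fun k => ⟨a k, Finset.mem_image_of_mem a (Finset.mem_univ k)⟩)
      ⟨fun k k' h => ha (Subtype.ext_iff.1 h), fun ⟨q, hq⟩ => by
        obtain ⟨k, -, rfl⟩ := Finset.mem_image.1 hq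
        exact ⟨k, rfl⟩⟩ with he
    rw [Fintype.linearIndependent_iff] at hli
    have h2 := hli (fun k => c (e k)) (by
      apply LinearMap.ext
      rintro ⟨τ, hτ⟩
      rw [LinearMap.sum_apply, LinearMap.zero_apply, ← hc τ hτ, ← Equiv.sum_comp e]
      rfl)
    funext q
    have h3 := h2 (e.symm q)
    rwa [Equiv.apply_symm_apply] at h3

/-- A component of the Fano scheme from a generic point. -/
theorem comp_of_generic {m n : ℕ} {K M : Type*} [Field K] [CharZero K] [Field M] [Algebra K M]
    (D : Ten (Ix m (Fin n)) K) (hD : IsSym D) (a : Fin m × Fin n → M)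
    (ha : VanOn (mapT (algebraMap K M) D) (row a)) (g' : Pr m → Ix m (Fin n) → M)
    (hg' : (QM (mapT (algebraMap K M) D) (row a) g').det ≠ 0)
    (hspan : ∀ τ ∈ Ta (mapT (algebraMap K M) D) a, τ ∈ Submodule.span M
        {t : Fin m × Fin n → M | ∃ δ : Derivation K M M, t = fun q => δ (a q)}) :
    RingHom.ker (aeval a : MvPolynomial (Fin m × Fin n) K →ₐ[K] M) ∈
      (fanoIdeal (cub D)).minimalPrimes ∧
      ∃ J : Finset (Fin m × Fin n), J.card + (m + 2).choose 3 = m * n ∧
        IsTranscendenceBasis K (fun q : J => (Ideal.Quotient.mk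
          (RingHom.ker (aeval a : MvPolynomial (Fin m × Fin n) K →ₐ[K] M)) (X q.1) :
          MvPolynomial (Fin m × Fin n) K ⧸
            RingHom.ker (aeval a : MvPolynomial (Fin m × Fin n) K →ₐ[K] M))) := by
  classical
  have hDM : IsSym (mapT (algebraMap K M) D) := hD.map _
  haveI : CharZero M := charZero_of_injective_algebraMap (algebraMap K M).injective
  have hdim := finrank_Ta (mapT (algebraMap K M) D) hDM a ha g' hg'
  obtain ⟨J, hJ, hJ1, hJ2⟩ := exists_coords (Ta (mapT (algebraMap K M) D) a)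
  have hind : AlgebraicIndependent K (fun q : J => a q) := by
    apply algInd_of_der
    intro c hc
    have h1 : (fun q => c q) = (0 : J → M) := by
      apply hJ2
      intro τ hτ
      have h2 := hspan τ hτ
      clear hτ
      induction h2 using Submodule.span_induction with
      | mem x hx =>
        obtain ⟨δ, rfl⟩ := hx
        have h3 := hc δ
        rw [Finsupp.sum_fintype _ _ (fun i => by rw [zero_mul])] at h3
        exact h3
      | zero => simp
      | add x y _ _ hx hy =>
        simp only [Pi.add_apply, mul_add, Finset.sum_add_distrib, hx, hy, add_zero]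
      | smul r x _ hx =>
        simp only [Pi.smul_apply, smul_eq_mul, mul_left_comm, ← Finset.mul_sum, hx, mul_zero]
    ext q
    exact congrFun h1 q
  obtain ⟨h1, h2⟩ := minimal_of_tangent a (fanoIdeal (cub D))
    (fun f hf => aeval_fanoIdeal D a ha f hf) J hind
    (fun τ hτ h0 => hJ1 τ (tangent_fano D hD a τ hτ) h0)
  exact ⟨h1, J, by rw [hJ]; exact hdim, h2⟩

/-- Renaming the variables. -/
theorem exists_fin_vars (K S : Type*) [Field K] [Finite S] :
    ∃ (N : ℕ) (φ : FractionRing (MvPolynomial S K) →ₐ[K] FractionRing (MvPolynomial (Fin N) K)),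
      Function.Injective φ := by
  obtain ⟨N, ⟨e⟩⟩ := Finite.exists_equiv_fin S
  set g : MvPolynomial S K →ₐ[K] FractionRing (MvPolynomial (Fin N) K) :=
    (IsScalarTower.toAlgHom K (MvPolynomial (Fin N) K) _).comp (rename e) with hg
  have hinj : Function.Injective g := by
    rw [hg]
    exact (IsFractionRing.injective (MvPolynomial (Fin N) K)
      (FractionRing (MvPolynomial (Fin N) K))).comp (rename_injective e e.injective)
  refine ⟨N, IsFractionRing.liftAlgHom hinj, ?_⟩
  rw [IsFractionRing.coe_liftAlgHom]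
  exact RingHom.injective _

theorem exists_hom {K M N σ : Type*} [Field K] [Field M] [Field N] [Algebra K M] [Algebra K N]
    (a : σ → M) (φ : M →ₐ[K] N) : ∃ ψ : (MvPolynomial σ K ⧸
      RingHom.ker (aeval a : MvPolynomial σ K →ₐ[K] M)) →ₐ[K] N, Function.Injective ψ := by
  have h : ∀ f ∈ RingHom.ker (aeval a : MvPolynomial σ K →ₐ[K] M),
      φ.comp (aeval a) f = 0 := by
    intro f hf
    rw [AlgHom.comp_apply, (RingHom.mem_ker).1 hf, map_zero]
  refine ⟨Ideal.Quotient.liftₐ _ (φ.comp (aeval a)) h, ?_⟩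
  rw [injective_iff_map_eq_zero]
  intro x hx
  obtain ⟨f, rfl⟩ := Ideal.Quotient.mk_surjective x
  rw [Ideal.Quotient.eq_zero_iff_mem, RingHom.mem_ker]
  have h1 : φ (aeval a f) = 0 := hx
  exact φ.toRingHom.injective (by rw [map_zero]; exact h1)

/-- A component of the Fano scheme of a form with a non-degenerate chain of maximal rank. -/
theorem local_main {m n k : ℕ} {K : Type*} [Field K] [CharZero K]
    {D : Ten (Ix m (Fin n)) K} {U : Fin m → Ix m (Fin n) → K} {π : ℕ → Par m (Fin n) → K}
    (hF : Full D U π k) :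
    ∃ P : Ideal (MvPolynomial (Fin m × Fin n) K), P ∈ (fanoIdeal (cub D)).minimalPrimes ∧
      (∃ J : Finset (Fin m × Fin n), J.card + (m + 2).choose 3 = m * n ∧
        IsTranscendenceBasis K (fun q : J => (Ideal.Quotient.mk P (X q.1) :
          MvPolynomial (Fin m × Fin n) K ⧸ P))) ∧
      (∃ (N : ℕ) (φ : (MvPolynomial (Fin m × Fin n) K ⧸ P) →ₐ[K]
        FractionRing (MvPolynomial (Fin N) K)), Function.Injective φ) ∧
      ∀ f, f ∉ P → ∃ y : Fin m × Fin n → K, eval y f ≠ 0 ∧ ∀ g ∈ P, eval y g = 0 := by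
  obtain ⟨V, hV, ⟨g, hg⟩, hB, hspan⟩ := generic_chain hF
  obtain ⟨a, ha, ⟨g', hg'⟩, hspan'⟩ := chart_of_chain D hF.sym V hV g hg hB hspan
  obtain ⟨h1, h2⟩ := comp_of_generic D hF.sym a ha g' hg' hspan'
  refine ⟨_, h1, h2, ?_, ?_⟩
  · obtain ⟨N, φ, hφ⟩ := exists_fin_vars K (Fin (k + 1) × Par m (Fin n))
    obtain ⟨ψ, hψ⟩ := exists_hom a φ
    exact ⟨N, ψ, hψ⟩
  · intro f hf
    obtain ⟨y, hy1, hy2⟩ := exists_pt a f hf
    exact ⟨y, hy1, fun g hg => hy2 g hg⟩

end Pool.Agent.Helper76.UF
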