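import Pool.Agent.Helper76.UF.Final
import Pool.Agent.Helper76.UF.Sr.S2

/-!
# Unirational components of Fano schemes: general pairs
-/

namespace Pool.Agent.Helper76.UF

open MvPolynomial AlgebraicGeometry CategoryTheory Pool.Agent.Helper15

section ring

variable {m n : ℕ} {A : Type*} [CommRing A]

theorem hm_mulVec (a : Fin m × Fin n → A) (x : Ix m (Fin n) → A) :
    (hm a).mulVec x = Sum.elim (fun j => x (.inl j))
      (fun b => (∑ j, a (j, b) * x (.inl j)) + x (.inr b)) := by
  rw [hm, Matrix.fromBlocks_mulVec, Matrix.one_mulVec, Matrix.zero_mulVec, add_zero,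
    Matrix.one_mulVec]
  funext l
  rcases l with l | l
  · rfl
  · rfl

theorem hm_std (a : Fin m × Fin n → A) (i : Fin m) :
    (hm a).mulVec (std m (Fin n) A i) = row a i := by
  rw [hm_mulVec]
  funext l
  rcases l with l | l
  · simp [std, row]
  · simp [std, row]

theorem hm_neg (a : Fin m × Fin n → A) (x : Ix m (Fin n) → A) :
    (hm fun q => - a q).mulVec ((hm a).mulVec x) = x := by
  rw [hm_mulVec, hm_mulVec]
  funext l
  rcases l with l | l
  · rfl
  · simp [← add_assoc, ← Finset.sum_add_distrib]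

theorem hm_neg' (a : Fin m × Fin n → A) (x : Ix m (Fin n) → A) :
    (hm a).mulVec ((hm fun q => - a q).mulVec x) = x := by
  have h := hm_neg (fun q => - a q) x
  simpa using h

theorem hm_map {B : Type*} [CommRing B] (f : A →+* B) (a : Fin m × Fin n → A) :
    (hm a).map f = hm (fun q => f (a q)) := by
  rw [hm, hm, Matrix.fromBlocks_map, Matrix.map_one _ f.map_zero f.map_one,
    Matrix.map_one _ f.map_zero f.map_one, Matrix.map_zero _ f.map_zero]
  rfl

/-- A form is determined by its values. -/
theorem ten_ext {ι : Type*} [Fintype ι] {D E : Ten ι A}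
    (h : ∀ x y z, tri D x y z = tri E x y z) : D = E := by
  classical
  funext i j k
  have h1 := h (Pi.single i 1) (Pi.single j 1) (Pi.single k 1)
  rwa [q4_tri_single, q4_tri_single] at h1

theorem compT_hm_neg (D : Ten (Ix m (Fin n)) A) (a : Fin m × Fin n → A) :
    compT (compT D (hm a)) (hm fun q => - a q) = D := by
  apply ten_ext
  intro x y z
  rw [tri_compT, tri_compT, hm_neg', hm_neg', hm_neg']

theorem compT_hm_neg' (D : Ten (Ix m (Fin n)) A) (a : Fin m × Fin n → A) :
    compT (compT D (hm fun q => - a q)) (hm a) = D := by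
  apply ten_ext
  intro x y z
  rw [tri_compT, tri_compT, hm_neg, hm_neg, hm_neg]

end ring

section field

variable {m n k : ℕ} {K : Type*} [Field K]

theorem vanOn_row (D : Ten (Ix m (Fin n)) K) (a : Fin m × Fin n → K)
    (h : VanOn (compT D (hm a)) (std m _ K)) : VanOn D (row a) := by
  intro i j l
  have h1 := h i j l
  rwa [tri_compT, hm_std, hm_std, hm_std] at h1

theorem vanOn_std (D : Ten (Ix m (Fin n)) K) (a : Fin m × Fin n → K)
    (h : VanOn D (row a)) : VanOn (compT D (hm a)) (std m _ K) := by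
  intro i j l
  rw [tri_compT, hm_std, hm_std, hm_std]
  exact h i j l

theorem full_row (D : Ten (Ix m (Fin n)) K) (a : Fin m × Fin n → K)
    (π : ℕ → Par m (Fin n) → K) (hF : Full (compT D (hm a)) (std m _ K) π k) :
    ∃ π' : ℕ → Par m (Fin n) → K, Full D (row a) π' k := by
  obtain ⟨hc, hg, hr⟩ := transfer_explicit' (compT D (hm a)) (hm fun q => - a q) (hm a)
    (hm_neg a) (hm_neg' a) (std m _ K) (row a)
    (fun i => by rw [← hm_std, hm_neg]) π k hF.good
  rw [compT_hm_neg] at hc hg hr
  refine ⟨fun j => actP (hm a) (π j), ?_, vanOn_row D a hF.van, hg, ?_, ?_⟩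
  · rw [← compT_hm_neg D a]
    exact hF.sym.comp _
  · rw [hr]
    exact hF.rank
  · have h1 := hF.chart
    have h2 : (Matrix.of fun i j => chain D (row a) (fun j => actP (hm a) (π j)) k i (.inl j)) =
        Matrix.of fun i j => chain (compT D (hm a)) (std m _ K) π k i (.inl j) := by
      ext i j
      rw [Matrix.of_apply, Matrix.of_apply, hc, hm_mulVec]
      rfl
    rwa [h2]

end field

/-- The main theorem. -/
theorem main (m n : ℕ) (hn : (m + 1).choose 2 + 2 ≤ n) :
    ∃ v : MvPolynomial (CubicMon m n ⊕ (Fin m × Fin n)) ℚ,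
      (∀ (K : Type) [Field K] [CharZero K] (F : MvPolynomial (Fin m ⊕ Fin n) K)
        (a : Fin m × Fin n → K), F.IsHomogeneous 3 → OnFano F a →
        aeval (Sum.elim (coeffs F) a) v ≠ 0 → HasUnirationalComponent F) ∧
      ∃ Δ : MvPolynomial (CubicMon m n) ℚ, Δ ≠ 0 ∧
        ∀ (K : Type) [Field K] [CharZero K] (F : MvPolynomial (Fin m ⊕ Fin n) K),
          F.IsHomogeneous 3 → aeval (coeffs F) Δ ≠ 0 →
          ∃ (L : Type) (_ : Field L) (_ : CharZero L) (_ : Algebra K L),
            FiniteDimensional K L ∧ ∃ a : Fin m × Fin n → L,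
              OnFano (MvPolynomial.map (algebraMap K L) F) a ∧
              aeval (Sum.elim (coeffs (MvPolynomial.map (algebraMap K L) F)) a) v ≠ 0 := by
  classical
  obtain ⟨D, k, π, hD⟩ := real_full m n hn
  obtain ⟨w, hw, hcert⟩ := cert2 m n k D π hD
  -- the certificate
  set T : Ten (Ix m (Fin n)) (MvPolynomial (E3 (Fin m ⊕ Fin n) ⊕ (Fin m × Fin n)) ℚ) :=
    compT (tenC fun e => X (.inl e)) (hm fun q => X (.inr q)) with hT
  have key : ∀ (K : Type) [Field K] [CharZero K] (y : E3 (Fin m ⊕ Fin n) → K)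
      (a : Fin m × Fin n → K), aeval (Sum.elim y a) (aeval (fun i => T i.1 i.2.1 i.2.2) w) =
        aeval (fun i : Ix m (Fin n) × Ix m (Fin n) × Ix m (Fin n) =>
          compT (tenC y) (hm a) i.1 i.2.1 i.2.2) w := by
    intro K _ _ y a
    set φ : MvPolynomial (E3 (Fin m ⊕ Fin n) ⊕ (Fin m × Fin n)) ℚ →ₐ[ℚ] K :=
      aeval (Sum.elim y a) with hφ
    have h1 : (φ.comp (aeval fun i => T i.1 i.2.1 i.2.2) :
        MvPolynomial (Ix m (Fin n) × Ix m (Fin n) × Ix m (Fin n)) ℚ →ₐ[ℚ] K) =
        aeval (fun i => compT (tenC y) (hm a) i.1 i.2.1 i.2.2) := by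
      apply MvPolynomial.algHom_ext
      intro i
      rw [AlgHom.comp_apply, aeval_X, aeval_X]
      have h2 := mapT_compT (tenC fun e => X (.inl e)) φ.toRingHom (hm fun q => X (.inr q))
        (ι := Ix m (Fin n)) (ι' := Ix m (Fin n))
      have h3 : mapT φ.toRingHom (tenC fun e => X (.inl e)) = tenC y := by
        funext i j l
        have h4 := map_tenC φ (fun e : E3 (Fin m ⊕ Fin n) => X (.inl e)) i j l
        have h5 : (fun e : E3 (Fin m ⊕ Fin n) => φ (X (.inl e))) = y := by
          funext e
          rw [hφ, aeval_X]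
          rfl
        rw [h5] at h4
        exact h4
      have h6 : (hm fun q : Fin m × Fin n => X (.inr q)).map φ.toRingHom = hm a := by
        rw [hm_map]
        congr 1
        funext q
        exact aeval_X _ _
      rw [h3, h6] at h2
      exact congrFun (congrFun (congrFun h2 i.1) i.2.1) i.2.2
    rw [← h1]
    rfl
  refine ⟨aeval (fun i => T i.1 i.2.1 i.2.2) w, fun K _ _ F a hF ha hne => ?_, ?_⟩
  · have hcub := cub_tenC F hF
    have hsym := isSym_tenC (fun e : E3 (Fin m ⊕ Fin n) => coeff e.1 F)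
    have hne' := (key K (fun e : E3 (Fin m ⊕ Fin n) => coeff e.1 F) a).symm.trans_ne hne
    have hvan : VanOn (tenC fun e : E3 (Fin m ⊕ Fin n) => coeff e.1 F) (row a) := by
      intro i j l
      have h1 := ha (tri (mapT (C : K →+* MvPolynomial (Fin m × Fin n) K)
        (tenC fun e : E3 (Fin m ⊕ Fin n) => coeff e.1 F)) (row X i) (row X j) (row X l)) (by
        have := tri_mem_fanoIdeal (tenC fun e : E3 (Fin m ⊕ Fin n) => coeff e.1 F) hsym i j l
        rwa [hcub] at this)
      rw [tri_map] at h1
      have h2 : ∀ i, (fun l => eval a (row (X : Fin m × Fin n → MvPolynomial (Fin m × Fin n) K)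
          i l)) = row a i := by
        intro i
        funext l
        rcases l with l | l
        · by_cases h : l = i
          · subst h; simp [row]
          · simp [row, h]
        · simp [row]
      have h3 : mapT (eval a) (mapT (C : K →+* MvPolynomial (Fin m × Fin n) K)
          (tenC fun e : E3 (Fin m ⊕ Fin n) => coeff e.1 F)) =
          tenC fun e : E3 (Fin m ⊕ Fin n) => coeff e.1 F := by
        funext i j l
        simp [mapT]
      rw [h2, h2, h2, h3] at h1
      exact h1
    obtain ⟨π', hπ'⟩ := hcert K _ (hsym.comp _) (vanOn_std _ a hvan) hne'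
    obtain ⟨π'', hπ''⟩ := full_row _ a π' hπ'
    have h1 := hasUnirationalComponent hπ''
    rwa [hcub] at h1
  · have hdom := dom2 m n D hD.sym hD.van (gP (π 0)) (hD.good.det 0 (Nat.zero_le _))
    haveI : Finite (E3 (Ix m (Fin n))) := finite_E3 _
    set w2 : MvPolynomial (Wv m n) ℚ := aeval (fun i : Ix m (Fin n) × Ix m (Fin n) ×
      Ix m (Fin n) => symvan (fun i j l => X (.inl (i, j, l))) i.1 i.2.1 i.2.2) w with hw2
    have hkey2 : ∀ (K : Type) [Field K] [CharZero K] (x : Wv m n → K),
        aeval x w2 = aeval (fun i : Ix m (Fin n) × Ix m (Fin n) × Ix m (Fin n) =>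
          symvan (fun i j l => x (.inl (i, j, l))) i.1 i.2.1 i.2.2) w := by
      intro K _ _ x
      have h1 : ((aeval x).comp (aeval fun i : Ix m (Fin n) × Ix m (Fin n) ×
          Ix m (Fin n) => symvan (fun i j l => X (.inl (i, j, l))) i.1 i.2.1 i.2.2) :
          MvPolynomial (Ix m (Fin n) × Ix m (Fin n) × Ix m (Fin n)) ℚ →ₐ[ℚ] K) =
          aeval (fun i => symvan (fun i j l => x (.inl (i, j, l))) i.1 i.2.1 i.2.2) := by
        apply MvPolynomial.algHom_ext
        intro i
        rw [AlgHom.comp_apply, aeval_X, aeval_X]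
        have h2 := q4_map_symvan ((aeval x : MvPolynomial (Wv m n) ℚ →ₐ[ℚ] K) :
          MvPolynomial (Wv m n) ℚ →+* K) (fun i j l => X (.inl (i, j, l)))
        have h3 : mapT ((aeval x : MvPolynomial (Wv m n) ℚ →ₐ[ℚ] K) :
          MvPolynomial (Wv m n) ℚ →+* K) (fun i j l => X (.inl (i, j, l))) =
          fun i j l => x (.inl (i, j, l)) := by
          funext i j l
          exact aeval_X _ _
        rw [h3] at h2
        exact congrFun (congrFun (congrFun h2 i.1) i.2.1) i.2.2
      rw [← h1]
      rfl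
    have hw2' : w2 ≠ 0 := by
      intro h0
      apply hw
      have h1 := hkey2 ℝ (Sum.elim (fun i => D i.1 i.2.1 i.2.2 / 6) 0)
      rw [h0, map_zero] at h1
      have h2 := sv_symvan_eq D hD.sym hD.van 1
      simp only [one_mul] at h2
      simp only [Sum.elim_inl] at h1
      rw [h2] at h1
      exact h1.symm
    obtain ⟨Δ, hΔ, h⟩ := chev _ hdom w2 hw2'
    refine ⟨Δ, hΔ, fun K _ _ F hF hne => ?_⟩
    obtain ⟨L, iL, cL, aL, fL, x, hx, hxv⟩ := h K (fun e => coeff e.1 F) hne
    have h2 : cub (vD x) = MvPolynomial.map (algebraMap K L) F := by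
      apply eq_of_coeff (isHomogeneous_cub _) (hF.map _)
      intro e
      rw [coeff_map, ← hx e]
      have h3 := q4_map_coeff ((aeval x : MvPolynomial (Wv m n) ℚ →ₐ[ℚ] L) :
        MvPolynomial (Wv m n) ℚ →+* L) (vD (X : Wv m n → MvPolynomial (Wv m n) ℚ)) e.1
      have h4 : mapT ((aeval x : MvPolynomial (Wv m n) ℚ →ₐ[ℚ] L) :
          MvPolynomial (Wv m n) ℚ →+* L) (vD (X : Wv m n → MvPolynomial (Wv m n) ℚ)) = vD x := by
        rw [vD, mapT_compT, q4_map_symvan, hm_map, vD]
        congr 1
        · congr 1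
          funext i j l
          exact aeval_X _ _
        · congr 1
          funext q
          rw [map_neg]
          congr 1
          exact aeval_X _ _
      rw [h4] at h3
      exact h3.symm
    have hsym : IsSym (vD x) := (sv_symvan_sym _).comp _
    have h3 : compT (vD x) (hm fun q => x (.inr q)) =
        symvan fun i j l => x (.inl (i, j, l)) := compT_hm_neg' _ _
    refine ⟨L, iL, cL, aL, fL, fun q => x (.inr q), ?_, ?_⟩
    · rw [← h2]
      intro g hg
      have h4 : VanOn (vD x) (row fun q => x (.inr q)) := by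
        apply vanOn_row
        rw [h3]
        exact sv_symvan_van _
      have h5 := aeval_fanoIdeal (vD x) (fun q => x (.inr q)) (by
        have h6 : mapT (algebraMap L L) (vD x) = vD x := rfl
        rw [h6]
        exact h4) g hg
      rwa [aeval_eq_eval] at h5
    · have h7 := key L (fun e : E3 (Fin m ⊕ Fin n) => coeff e.1 (cub (vD x)))
        (fun q => x (.inr q))
      rw [tenC_cub _ hsym, h3, ← hkey2] at h7
      rw [← h2]
      exact h7.trans_ne hxv

end Pool.Agent.Helper76.UF
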